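import Mathlib

/-! A quadratic pencil of operators whose square is proportional to it. -/

namespace Pool.Agent.Lib.MP_bb4e29_gt

open Filter Topology

theorem pencil_six {c₀ c₁ c₂ c₃ c₄ c₅ c₆ : ℝ} (h : ∀ᶠ s : ℝ in 𝓝 0,
    c₀ + c₁ * s + c₂ * s ^ 2 + c₃ * s ^ 3 + c₄ * s ^ 4 + c₅ * s ^ 5 + c₆ * s ^ 6 = 0) :
    c₆ = 0 := by
  obtain ⟨ε, hε, h⟩ := Metric.eventually_nhds_iff.1 h
  have k : ∀ j : ℝ, 0 ≤ j → j ≤ 6 → dist (j * (ε / 7)) 0 < ε := fun j h0 h6 => by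
    rw [Real.dist_eq, sub_zero, abs_of_nonneg (by positivity)]
    nlinarith
  have e0 := h (k 0 (by norm_num) (by norm_num))
  have e1 := h (k 1 (by norm_num) (by norm_num))
  have e2 := h (k 2 (by norm_num) (by norm_num))
  have e3 := h (k 3 (by norm_num) (by norm_num))
  have e4 := h (k 4 (by norm_num) (by norm_num))
  have e5 := h (k 5 (by norm_num) (by norm_num))
  have e6 := h (k 6 (by norm_num) (by norm_num))
  have e : 720 * (ε / 7) ^ 6 * c₆ = 0 := by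
    linear_combination e0 - 6 * e1 + 15 * e2 - 20 * e3 + 15 * e4 - 6 * e5 + e6
  exact (mul_eq_zero.1 e).resolve_left (by positivity)

theorem pencil_top {x₀ x₁ x₂ y₀ y₁ y₂ y₃ y₄ z₀ z₁ z₂ w₀ w₁ w₂ w₃ w₄ : ℝ} (h : ∀ᶠ s : ℝ in 𝓝 0,
    (x₀ + s * x₁ + s ^ 2 * x₂) * (y₀ + s * y₁ + s ^ 2 * y₂ + s ^ 3 * y₃ + s ^ 4 * y₄) =
      (z₀ + s * z₁ + s ^ 2 * z₂) * (w₀ + s * w₁ + s ^ 2 * w₂ + s ^ 3 * w₃ + s ^ 4 * w₄)) :
    x₂ * y₄ - z₂ * w₄ = 0 := by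
  refine pencil_six (c₀ := x₀ * y₀ - z₀ * w₀)
    (c₁ := x₀ * y₁ + x₁ * y₀ - (z₀ * w₁ + z₁ * w₀))
    (c₂ := x₀ * y₂ + x₁ * y₁ + x₂ * y₀ - (z₀ * w₂ + z₁ * w₁ + z₂ * w₀))
    (c₃ := x₀ * y₃ + x₁ * y₂ + x₂ * y₁ - (z₀ * w₃ + z₁ * w₂ + z₂ * w₁))
    (c₄ := x₀ * y₄ + x₁ * y₃ + x₂ * y₂ - (z₀ * w₄ + z₁ * w₃ + z₂ * w₂))
    (c₅ := x₁ * y₄ + x₂ * y₃ - (z₁ * w₄ + z₂ * w₃)) (h.mono fun s hs => ?_)
  linear_combination hs

theorem pencil_sq {T : Type} [AddCommGroup T] [Module ℝ T] [FiniteDimensional ℝ T]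
    {M D : T →ₗ[ℝ] T} {ν : ℝ} (h1 : ∀ a, M (D a) = a)
    (h2 : ∀ a, D (D (D a) + (1 - ν) • D a - ν • a) = 0) :
    ∃ c : ℝ, ∀ a, (a + M a) + M (a + M a) = c • (a + M a) := by
  have hinj : Function.Injective D := fun a b hab => by rw [← h1 a, ← h1 b, hab]
  have hsur : Function.Surjective D := LinearMap.injective_iff_surjective.1 hinj
  have h3 : ∀ a, D (D a) + (1 - ν) • D a - ν • a = 0 := fun a =>
    hinj (by rw [h2 a, map_zero])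
  have h4 : ∀ a, a + (1 - ν) • M a - ν • M (M a) = 0 := by
    intro a
    obtain ⟨b, rfl⟩ := hsur a
    obtain ⟨c, rfl⟩ := hsur b
    rw [h1, h1]
    exact h3 c
  by_cases hν : ν = 0
  · refine ⟨0, fun a => ?_⟩
    have : a + M a = 0 := by simpa [hν] using h4 a
    rw [this]
    simp
  · refine ⟨1 + ν⁻¹, fun a => ?_⟩
    apply smul_right_injective T hν
    beta_reduce
    rw [smul_smul, mul_add, mul_one, mul_inv_cancel₀ hν, map_add]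
    linear_combination (norm := module) -h4 a

theorem pencil {T : Type} [AddCommGroup T] [Module ℝ T] [FiniteDimensional ℝ T]
    (G H₀ H₁ : T →ₗ[ℝ] T →ₗ[ℝ] ℝ) (hs : ∀ a b, G a b = G b a) (hp : ∀ a, a ≠ 0 → 0 < G a a)
    {v e : T} (hv : v ≠ 0) (he : e ≠ 0) (hve : G v e = 0)
    (h : ∀ᶠ s : ℝ in 𝓝 0, ∃ (D : T →ₗ[ℝ] T) (ν : ℝ), (∀ a b, G a b = H₀ (D a) b + s * H₁ (D a) b +
      s ^ 2 * (G v (D a) * G v b + G v v / 2 * G (D a) b)) ∧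
      ∀ a, D (D (D a) + (1 - ν) • D a - ν • a) = 0) : False := by
  have hinj : Function.Injective G := by
    rw [injective_iff_map_eq_zero]
    intro a ha
    by_contra h0
    have := hp a h0
    rw [ha] at this
    exact lt_irrefl _ this
  let E : T ≃ₗ[ℝ] Module.Dual ℝ T :=
    LinearMap.linearEquivOfInjective G hinj Subspace.dual_finrank_eq.symm
  have hE : ∀ φ : Module.Dual ℝ T, G (E.symm φ) = φ := fun φ => E.apply_symm_apply φ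
  obtain ⟨B₀, h₀⟩ : ∃ B₀ : T →ₗ[ℝ] T, ∀ a b, G (B₀ a) b = G a b + H₀ a b :=
    ⟨LinearMap.id + E.symm.toLinearMap ∘ₗ H₀, fun a b => by simp [hE]⟩
  obtain ⟨B₁, h₁⟩ : ∃ B₁ : T →ₗ[ℝ] T, ∀ a b, G (B₁ a) b = H₁ a b :=
    ⟨E.symm.toLinearMap ∘ₗ H₁, fun a b => by simp [hE]⟩
  obtain ⟨B₂, h₂⟩ : ∃ B₂ : T →ₗ[ℝ] T, ∀ a, B₂ a = G v a • v + (G v v / 2) • a :=
    ⟨(G v).smulRight v + (G v v / 2) • LinearMap.id, fun a => by simp⟩
  have hev : G e v = 0 := by rw [hs, hve]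
  have key := pencil_top (x₀ := G (B₀ (v + e)) v) (x₁ := G (B₁ (v + e)) v)
    (x₂ := G (B₂ (v + e)) v) (y₀ := G (B₀ (B₀ (v + e))) e)
    (y₁ := G (B₀ (B₁ (v + e))) e + G (B₁ (B₀ (v + e))) e)
    (y₂ := G (B₀ (B₂ (v + e))) e + G (B₁ (B₁ (v + e))) e + G (B₂ (B₀ (v + e))) e)
    (y₃ := G (B₁ (B₂ (v + e))) e + G (B₂ (B₁ (v + e))) e) (y₄ := G (B₂ (B₂ (v + e))) e)
    (z₀ := G (B₀ (v + e)) e) (z₁ := G (B₁ (v + e)) e)
    (z₂ := G (B₂ (v + e)) e) (w₀ := G (B₀ (B₀ (v + e))) v)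
    (w₁ := G (B₀ (B₁ (v + e))) v + G (B₁ (B₀ (v + e))) v)
    (w₂ := G (B₀ (B₂ (v + e))) v + G (B₁ (B₁ (v + e))) v + G (B₂ (B₀ (v + e))) v)
    (w₃ := G (B₁ (B₂ (v + e))) v + G (B₂ (B₁ (v + e))) v) (w₄ := G (B₂ (B₂ (v + e))) v)
    (h.mono fun s hs' => by
      obtain ⟨D, ν, k1, k2⟩ := hs'
      obtain ⟨c, hc⟩ := pencil_sq (M := B₀ + s • B₁ + s ^ 2 • B₂ - LinearMap.id) (D := D)
        (ν := ν) (fun a => hinj (LinearMap.ext fun b => by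
          rw [k1 a b]
          simp only [LinearMap.sub_apply, LinearMap.add_apply, LinearMap.smul_apply,
            LinearMap.id_apply, map_sub, map_add, map_smul, smul_eq_mul, h₀, h₁, h₂]
          ring)) k2
      generalize v + e = a at hc ⊢
      have k3 : ∀ x, x + (B₀ + s • B₁ + s ^ 2 • B₂ - LinearMap.id : T →ₗ[ℝ] T) x =
          B₀ x + s • B₁ x + s ^ 2 • B₂ x := fun x => by simp
      have k4 := hc a
      rw [k3, k3] at k4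
      have k5 := congrArg (fun x => G x v) k4
      have k6 := congrArg (fun x => G x e) k4
      simp only [map_add, map_smul, LinearMap.add_apply, LinearMap.smul_apply,
        smul_eq_mul] at k5 k6
      linear_combination (G (B₀ a) v + s * G (B₁ a) v + s ^ 2 * G (B₂ a) v) * k6 -
        (G (B₀ a) e + s * G (B₁ a) e + s ^ 2 * G (B₂ a) e) * k5)
  simp only [h₂, map_add, map_smul, LinearMap.add_apply, LinearMap.smul_apply, smul_eq_mul,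
    hve, hev] at key
  have p1 := hp v hv
  have p2 := hp e he
  have p3 : 0 < G v v ^ 4 * G e e := by positivity
  nlinarith

end Pool.Agent.Lib.MP_bb4e29_gt
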