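import Mathlib

/-! The constant rank theorem, in the form of a local factorisation. -/

namespace Pool.Agent.Lib.MP_bb4e29_gt

open Module
open scoped ContDiff

theorem crank_lin {Q F T : Type} [AddCommGroup Q] [Module ℝ Q] [AddCommGroup F] [Module ℝ F]
    [FiniteDimensional ℝ F] [AddCommGroup T] [Module ℝ T] (D : Q →ₗ[ℝ] F) (l : F →ₗ[ℝ] T)
    (h : finrank ℝ (LinearMap.range D) ≤ finrank ℝ T) (hs : ∀ a, ∃ x, l (D x) = a) {x : Q}
    (hx : l (D x) = 0) : D x = 0 := by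
  have h1 := (l.domRestrict (LinearMap.range D)).finrank_range_add_finrank_ker
  rw [LinearMap.range_eq_top.2 fun a => (hs a).elim fun y e => ⟨⟨D y, y, rfl⟩, e⟩,
    finrank_top] at h1
  have h2 : LinearMap.ker (l.domRestrict (LinearMap.range D)) = ⊥ :=
    Submodule.finrank_eq_zero.1 (by omega)
  exact congrArg Subtype.val (LinearMap.ker_eq_bot'.1 h2 ⟨D x, x, rfl⟩ hx)

theorem crank {P F T : Type} [NormedAddCommGroup P] [NormedSpace ℝ P] [FiniteDimensional ℝ P]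
    [NormedAddCommGroup F] [NormedSpace ℝ F] [FiniteDimensional ℝ F]
    [NormedAddCommGroup T] [NormedSpace ℝ T] [FiniteDimensional ℝ T] {f : P → F} {U : Set P}
    (hU : IsOpen U) (hf : ContDiffOn ℝ ∞ f U) {u₀ : P} (h₀ : u₀ ∈ U)
    (hk : finrank ℝ (LinearMap.range (fderiv ℝ f u₀ : P →ₗ[ℝ] F)) = finrank ℝ T)
    (hle : ∀ u ∈ U, finrank ℝ (LinearMap.range (fderiv ℝ f u : P →ₗ[ℝ] F)) ≤ finrank ℝ T) :
    ∃ (V : Set P) (t : P → T) (p : T → F), IsOpen V ∧ u₀ ∈ V ∧ V ⊆ U ∧ ∀ u ∈ V,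
      ContDiffAt ℝ ∞ t u ∧ Function.Surjective (fderiv ℝ t u) ∧ ContDiffAt ℝ ∞ p (t u) ∧
        f u = p (t u) ∧ ∀ X, fderiv ℝ f u X = 0 → fderiv ℝ t u X = 0 := by
  have := FiniteDimensional.complete ℝ P
  obtain ⟨e⟩ := FiniteDimensional.nonempty_linearEquiv_of_finrank_eq hk
  obtain ⟨l₀, hl⟩ := LinearMap.exists_extend e.toLinearMap
  let l : F →L[ℝ] T := LinearMap.toContinuousLinearMap l₀
  let A : P →L[ℝ] T := l.comp (fderiv ℝ f u₀)
  have hA : ∀ a, ∃ x, A x = a := fun a => by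
    obtain ⟨⟨_, x, rfl⟩, h⟩ := e.surjective a
    exact ⟨x, (LinearMap.congr_fun hl ⟨_, x, rfl⟩).trans h⟩
  let K : Submodule ℝ P := LinearMap.ker (A : P →ₗ[ℝ] T)
  obtain ⟨π₀, hπ⟩ := K.subtype.exists_leftInverse_of_injective K.ker_subtype
  have hπ' : ∀ κ : K, π₀ κ = κ := LinearMap.congr_fun hπ
  let π : P →L[ℝ] K := LinearMap.toContinuousLinearMap π₀
  have hB : Function.Bijective (A.prod π : P →ₗ[ℝ] T × K) := by
    refine ⟨(injective_iff_map_eq_zero _).2 fun x hx => ?_, fun ⟨a, κ⟩ => ?_⟩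
    · exact congrArg Subtype.val ((hπ' ⟨x, congrArg Prod.fst hx⟩).symm.trans (congrArg Prod.snd hx))
    · obtain ⟨x, rfl⟩ := hA a
      refine ⟨x + (κ - π₀ x : K), Prod.ext ?_ ?_⟩
      · exact (map_add A _ _).trans (by rw [show A (κ - π₀ x : K) = 0 from (κ - π₀ x).2, add_zero])
      · exact (map_add π₀ _ _).trans (by rw [hπ', add_sub_cancel])
  let B : P ≃L[ℝ] T × K := (LinearEquiv.ofBijective _ hB).toContinuousLinearEquiv
  have c1 : ∀ u ∈ U, ContDiffAt ℝ ∞ f u := fun u hu => hf.contDiffAt (hU.mem_nhds hu)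
  have d1 : ∀ u ∈ U, HasFDerivAt f (fderiv ℝ f u) u := fun u hu =>
    ((c1 u hu).differentiableAt (by simp)).hasFDerivAt
  have c2 : ∀ u ∈ U, ContDiffAt ℝ ∞ (fun u => (l (f u), π u)) u := fun u hu =>
    (l.contDiff.contDiffAt.comp u (c1 u hu)).prodMk π.contDiff.contDiffAt
  have d2 : ∀ u ∈ U, HasFDerivAt (fun u => l (f u)) (l.comp (fderiv ℝ f u)) u := fun u hu =>
    l.hasFDerivAt.comp u (d1 u hu)
  have d3 : ∀ u ∈ U, HasFDerivAt (fun u => (l (f u), π u)) ((l.comp (fderiv ℝ f u)).prod π) u :=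
    fun u hu => (d2 u hu).prodMk π.hasFDerivAt
  let h := (c2 u₀ h₀).toOpenPartialHomeomorph _ (f' := B) (d3 u₀ h₀) (by simp)
  have hs : u₀ ∈ h.source := ContDiffAt.mem_toOpenPartialHomeomorph_source _ _ _
  have hW : IsOpen (U ∩ (fun u => (l.comp (fderiv ℝ f u)).prod π) ⁻¹'
      Set.range ((↑) : (P ≃L[ℝ] T × K) → P →L[ℝ] T × K)) :=
    (((ContDiffOn.continuousOn_fderiv_of_isOpen (fun u hu => (c2 u hu).contDiffWithinAt) hU
      (by simp))).congr fun u hu => (d3 u hu).fderiv.symm).isOpen_inter_preimage hU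
      ContinuousLinearEquiv.isOpen
  obtain ⟨r, hr, hb⟩ := Metric.isOpen_iff.1 (h.isOpen_inter_preimage_symm hW) (h u₀)
    ⟨h.map_source hs, by
      rw [Set.mem_preimage, h.left_inv hs]
      exact ⟨h₀, B, rfl⟩⟩
  have c3 : ∀ y ∈ Metric.ball (h u₀) r, ContDiffAt ℝ ∞ h.symm y := fun y hy => by
    obtain ⟨a, b, C, c⟩ := hb hy
    exact h.contDiffAt_symm (f₀' := C) a (c ▸ d3 _ b) (c2 _ b)
  have c4 : ∀ y ∈ Metric.ball (h u₀) r, ContDiffAt ℝ ∞ (f ∘ h.symm) y := fun y hy =>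
    (c1 _ (hb hy).2.1).comp y (c3 y hy)
  have c5 : ∀ y ∈ Metric.ball (h u₀) r, ∀ κ, fderiv ℝ (f ∘ h.symm) y (0, κ) = 0 := fun y hy κ => by
    have k1 : l.comp (fderiv ℝ (f ∘ h.symm) y) = ContinuousLinearMap.fst ℝ T K :=
      (l.hasFDerivAt.comp y ((c4 y hy).differentiableAt (by simp)).hasFDerivAt).unique
        (hasFDerivAt_fst.congr_of_eventuallyEq (Filter.mem_of_superset
          (Metric.isOpen_ball.mem_nhds hy) fun z hz => congrArg Prod.fst (h.right_inv (hb hz).1)))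
    have k2 := fun x => DFunLike.congr_fun k1 x
    refine crank_lin (fderiv ℝ (f ∘ h.symm) y : T × K →ₗ[ℝ] F) l₀
      (le_trans (Submodule.finrank_mono ?_) (hle _ (hb hy).2.1)) (fun a => ⟨(a, 0), k2 _⟩) (k2 _)
    rw [((d1 _ (hb hy).2.1).comp y ((c3 y hy).differentiableAt (by simp)).hasFDerivAt).fderiv]
    rintro _ ⟨x, rfl⟩
    exact ⟨_, rfl⟩
  refine ⟨h.source ∩ h ⁻¹' Metric.ball (h u₀) r, fun u => l (f u),
    fun a => f (h.symm (a, π u₀)), h.isOpen_inter_preimage Metric.isOpen_ball,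
    ⟨hs, Metric.mem_ball_self hr⟩, fun u hu => h.left_inv hu.1 ▸ (hb hu.2).2.1, fun u hu => ?_⟩
  obtain ⟨-, b, C, c⟩ := hb hu.2
  rw [h.left_inv hu.1] at b
  simp only [h.left_inv hu.1] at c
  have m0 : max (dist (l (f u)) (l (f u₀))) (dist (π u) (π u₀)) < r := hu.2
  have m : ∀ κ ∈ Metric.ball (π u₀) r, (l (f u), κ) ∈ Metric.ball (h u₀) r := fun κ k =>
    show max (dist (l (f u)) (l (f u₀))) (dist κ (π u₀)) < r from max_lt (max_lt_iff.1 m0).1 k
  refine ⟨l.contDiff.contDiffAt.comp u (c1 u b), fun a => ?_,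
    ContDiffAt.comp (f := fun a => (a, π u₀)) _ (c4 _ (m _ (Metric.mem_ball_self hr)))
      (contDiffAt_id.prodMk contDiffAt_const), ?_,
    fun X hX => by rw [(d2 u b).fderiv, ContinuousLinearMap.comp_apply, hX, map_zero]⟩
  · obtain ⟨x, hx⟩ := C.surjective (a, 0)
    exact ⟨x, (d2 u b).fderiv ▸ congrArg Prod.fst
      ((DFunLike.congr_fun c x).symm.trans hx)⟩
  · have k : ∀ κ ∈ Metric.ball (π u₀) r, HasFDerivAt (fun κ => f (h.symm (l (f u), κ)))
        (0 : K →L[ℝ] F) κ := fun κ k => by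
      have := ((c4 _ (m κ k)).differentiableAt (by simp)).hasFDerivAt.comp κ
        (hasFDerivAt_prodMk_right (𝕜 := ℝ) (l (f u)) κ)
      exact this.congr_fderiv (ContinuousLinearMap.ext fun x => c5 _ (m κ k) x)
    have := Metric.isOpen_ball.is_const_of_fderiv_eq_zero (𝕜 := ℝ)
      (convex_ball (π u₀) r).isPreconnected
      (fun κ a => (k κ a).differentiableAt.differentiableWithinAt) (fun κ a => (k κ a).fderiv)
      (max_lt_iff.1 m0).2 (Metric.mem_ball_self hr)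
    exact (congrArg f (h.left_inv hu.1)).symm.trans this

end Pool.Agent.Lib.MP_bb4e29_gt
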