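import Pool.Agent.Lib.MP_bb4e29_gt.Cl.LDefs

/-! The phase of the lift. -/

namespace Pool.Agent.Lib.MP_bb4e29_gt

open scoped ContDiff

variable {E : Type} [NormedAddCommGroup E] [InnerProductSpace ℂ E]
  {P : Type} [NormedAddCommGroup P] [NormedSpace ℝ P]
  {r : ℝ} {U : Set P} {Φ ξ : P → E} {A : P → P →ₗ[ℝ] P} {W : P → P}

theorem IsPiece.gauge (h : IsPiece r U Φ ξ A W) : ∃ c : P → ℂ,
    (∀ u ∈ U, ContDiffAt ℝ ∞ c u ∧ ‖c u‖ ^ 2 * (1 - ‖Φ u‖ ^ 2) = 1) ∧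
      ∀ u ∈ U, (Zv c Φ u + Nv r c Φ ξ u).1.im = 0 := by
  have hs : ∀ u ∈ U, 0 < 1 - ‖Φ u‖ ^ 2 := fun u hu => by
    nlinarith [(h.2.2.2 u hu).1, norm_nonneg (Φ u)]
  let m : P → ℂ := fun u => ((1 - ‖Φ u‖ ^ 2 : ℝ) : ℂ) + r * inner ℂ (Φ u) (ξ u)
  have hm : ∀ u ∈ U, m u ≠ 0 := fun u hu e => by
    have h1 := (h.2.2.2 u hu).2.2.1
    have h2 := hs u hu
    have h3 := congrArg (fun z : ℂ => ‖z‖ ^ 2) (eq_neg_of_add_eq_zero_left e)
    simp only [norm_neg, norm_mul, Complex.norm_real, Real.norm_eq_abs, mul_pow, sq_abs] at h3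
    rw [met, ← normsq_eq, ← inner_conj_symm (ξ u) (Φ u), ← normsq_cast, Complex.ofReal_re,
      div_eq_one_iff_eq (by positivity), mul_add, ← h3, add_eq_right] at h1
    have h4 : r * ‖ξ u‖ = 0 := pow_eq_zero_iff two_ne_zero |>.1
      (mul_left_cancel₀ h2.ne' (by linear_combination h1))
    have h5 : (r : ℂ) * inner ℂ (Φ u) (ξ u) = 0 := by
      rcases mul_eq_zero.1 h4 with k | k
      · simp [k]
      · simp [norm_eq_zero.1 k]
    exact h2.ne' (Complex.ofReal_eq_zero.1 (by simpa only [m, h5, add_zero] using e))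
  let c : P → ℂ := fun u => ((‖m u‖ * √(1 - ‖Φ u‖ ^ 2))⁻¹ : ℝ) * starRingEnd ℂ (m u)
  have hc : ∀ u ∈ U, ‖c u‖ ^ 2 * (1 - ‖Φ u‖ ^ 2) = 1 := fun u hu => by
    have h1 := norm_ne_zero_iff.2 (hm u hu)
    have h2 := (hs u hu).ne'
    simp only [c, norm_mul, Complex.norm_real, Real.norm_eq_abs, mul_pow, sq_abs, inv_pow,
      Complex.norm_conj, Real.sq_sqrt (hs u hu).le]
    field_simp
  refine ⟨c, fun u hu => ⟨?_, hc u hu⟩, fun u hu => ?_⟩
  · have c1 := h.2.1.contDiffAt (h.1.mem_nhds hu)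
    have c2 := h.2.2.1.contDiffAt (h.1.mem_nhds hu)
    have c3 : ContDiffAt ℝ ∞ (fun u => 1 - ‖Φ u‖ ^ 2) u := contDiffAt_const.sub (c1.norm_sq ℂ)
    have c4 : ContDiffAt ℝ ∞ m u := (Complex.ofRealCLM.contDiff.contDiffAt.comp u c3).add
      (contDiffAt_const.mul (c1.inner ℂ c2))
    exact (Complex.ofRealCLM.contDiff.contDiffAt.comp u
      (((c4.norm ℂ (hm u hu)).mul (c3.sqrt (hs u hu).ne')).inv (mul_ne_zero
        (norm_ne_zero_iff.2 (hm u hu)) (Real.sqrt_pos.2 (hs u hu)).ne'))).mul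
      (Complex.conjCLE.contDiff.contDiffAt.comp u c4)
  · have h1 : starRingEnd ℂ (c u) * c u * ((1 - ‖Φ u‖ ^ 2 : ℝ) : ℂ) = 1 := by
      rw [← normsq_cast, ← Complex.ofReal_mul, hc u hu, Complex.ofReal_one]
    have h2 : (Zv c Φ u + Nv r c Φ ξ u).1 = starRingEnd ℂ (c u) * c u * (c u * m u) := by
      simp only [Zv, Nv, herm, m, Prod.fst_add, Prod.smul_fst, Prod.smul_snd, smul_eq_mul,
        inner_smul_left, inner_smul_right]
      linear_combination -c u * h1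
    rw [h2, ← normsq_cast]
    simp only [c]
    rw [mul_assoc _ _ (m u), ← normsq_cast, ← Complex.ofReal_mul, ← Complex.ofReal_mul,
      Complex.ofReal_im]

end Pool.Agent.Lib.MP_bb4e29_gt
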