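import Pool.Agent.Lib.MP_bb4e29_gt.Cl.LiftG
import Pool.Agent.Lib.MP_bb4e29_gt.Cl.Gauge

/-! Envelopes along Legendrian curves are Hopf hypersurfaces with `a ^ 2 + 4 c = 0`. -/

namespace Pool.Agent.Lib.MP_bb4e29_gt

open Module
open scoped ContDiff

variable {E : Type} [NormedAddCommGroup E] [InnerProductSpace ℂ E]
  {P : Type} [NormedAddCommGroup P] [NormedSpace ℝ P]
  {r : ℝ} {U : Set P} {Φ ξ : P → E} {A : P → P →ₗ[ℝ] P} {W : P → P}

section

open Filter Topology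

variable {Z Y M : P → ℂ × E} {D : P → P →ₗ[ℝ] P} {u : P}

theorem conv_alt (h : Lf U Z Y D) (hu : u ∈ U) {m : ℂ × E} (h1 : herm m (Z u) = -1)
    (h2 : herm m m = 0) (h3 : ∀ X, (herm m (hor Z u X)).re = 0) :
    m = Y u ∨ m = Z u - (Y u - Z u) := by
  have h4 : herm (Z u) m = -1 := by rw [← herm_conj, h1, map_neg, map_one]
  obtain ⟨α, hα⟩ : ∃ α, α = (herm (Y u) (m - Z u)).re := ⟨_, rfl⟩
  obtain ⟨X, e⟩ := h.sur u hu (m - Z u - α • (Y u - Z u))
    (by simp [herm_sub_right, herm_rr, h4, h.zz u hu, h.zy hu])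
    (by rw [herm_sub_right, herm_rr, herm_sub_right (Y u) (Y u), h.yy u hu, h.yz u hu,
      Complex.sub_re, ← hα]; simp)
  have e0 : m - Z u - α • (Y u - Z u) = 0 := by
    by_contra k
    refine (h.pos hu X fun k' => k (by rw [← e, k', map_zero])).ne' ?_
    rw [gm_apply]
    nth_rewrite 1 [e]
    simp [herm_sub_left, herm_rl, h3, h.zh hu, h.nor u hu]
  rw [sub_eq_zero] at e0
  have e1 := congrArg (fun v => (herm v v).re) e0
  simp only [herm_rl, herm_rr, herm_sub_left, herm_sub_right, h1, h2, h4, h.zz u hu, h.zy hu,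
    h.yz u hu, h.yy u hu] at e1
  have e2 : α * α = 1 := by simpa using e1.symm
  rcases mul_self_eq_one_iff.1 e2 with k | k <;> rw [k, sub_eq_iff_eq_add] at e0
  · exact .inl (by rw [e0, one_smul, sub_add_cancel])
  · exact .inr (by rw [e0, neg_one_smul, neg_add_eq_sub])

theorem conv_loc (h : Lf U Z Y D) (hu : u ∈ U)
    (h1 : ∀ v ∈ U, M v = Y v ∨ M v = Z v - (Y v - Z v)) (h2 : ContinuousAt M u) (h3 : M u = Y u) :
    Y =ᶠ[𝓝 u] M := by
  have c : ContinuousAt (fun v => (herm (Y v) (M v)).re) u := Complex.continuous_re.continuousAt.comp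
    (herm_bdd.continuous.continuousAt.comp (f := fun v => (Y v, M v))
      ((h.cY u hu).continuousAt.prodMk h2))
  filter_upwards [h.op.mem_nhds hu, c.eventually_const_lt (u := -1) (by simp [h3, h.yy u hu])]
    with v hv k
  refine ((h1 v hv).resolve_right fun e => ?_).symm
  rw [e, herm_sub_right, herm_sub_right, h.yz v hv, h.yy v hv] at k
  norm_num at k

theorem conv_one [FiniteDimensional ℂ E] [FiniteDimensional ℝ P] (h : IsPiece r U Φ ξ A W)
    (hr : r ≠ 0) (hd : finrank ℝ P + 1 = 2 * finrank ℂ E) {c : P → ℂ}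
    (hc : ∀ u ∈ U, ContDiffAt ℝ ∞ c u ∧ ‖c u‖ ^ 2 * (1 - ‖Φ u‖ ^ 2) = 1) (hu : u ∈ U)
    (h1 : ∀ v ∈ U, herm (M v) (Zv c Φ v) = -1 ∧ herm (M v) (M v) = 0 ∧
      ∀ X, (herm (M v) (hor (Zv c Φ) v X)).re = 0) (h2 : ContinuousAt M u)
    (h3 : ∀ X, herm (M u) (fderiv ℝ M u X) = 0) (h4 : M u = Zv c Φ u + Nv r c Φ ξ u) :
    ∃ a : ℝ, A u (W u) = a • W u ∧ a ^ 2 + 4 * (-1 / r ^ 2) = 0 := by
  obtain ⟨k, w⟩ := h.lift hr hd hc
  have e := conv_loc k hu (fun v hv => conv_alt k hv (h1 v hv).1 (h1 v hv).2.1 (h1 v hv).2.2) h2 h4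
  refine ⟨2 / r, (Dv_w hr (k.gw hu (w u hu))).1 ((k.leg_iff hu (w u hu)).1 fun X => ?_), by ring⟩
  rw [e.fderiv_eq, ← h4, h3]

theorem conv_horo {c : ℂ} {z : E} (hc : ‖c‖ ^ 2 * (1 - ‖z‖ ^ 2) = 1) (q : E) (κ : ℝ) :
    ‖herm (1, q) (c • ((1 : ℂ), z))‖ ^ 2 - κ = ‖c‖ ^ 2 * horo q κ z := by
  have : herm (1, q) ((1 : ℂ), z) = -(1 - inner ℂ q z) := by simp [herm, neg_add_eq_sub]
  rw [herm_smul_right, this, norm_mul, norm_neg, mul_pow, horo]
  linear_combination κ * hc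

end

theorem IsPiece.conv [FiniteDimensional ℂ E] [FiniteDimensional ℝ P] (h : IsPiece r U Φ ξ A W)
    (hr : r ≠ 0) (hd : finrank ℝ P + 1 = 2 * finrank ℂ E) (he : IsEnvelope U Φ) :
    ∀ u ∈ U, ∃ a : ℝ, A u (W u) = a • W u ∧ a ^ 2 + 4 * (-1 / r ^ 2) = 0 := by
  obtain ⟨c, hc, -⟩ := h.gauge
  obtain ⟨t, q, κ, he⟩ := he
  obtain ⟨k, -⟩ := h.lift hr hd hc
  obtain ⟨y, hy⟩ : ∃ y : ℝ → ℂ × E, y = fun s => (1, q s) := ⟨_, rfl⟩
  obtain ⟨l, hl⟩ : ∃ l : P → ℂ, l = fun v => herm (y (t v)) (Zv c Φ v) := ⟨_, rfl⟩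
  have dy : ∀ v ∈ U, HasDerivAt y (0, deriv q (t v)) (t v) := fun v hv => hy ▸
    (hasDerivAt_const _ _).prodMk ((he v hv).2.2.1.differentiableAt (by simp)).hasDerivAt
  have dt : ∀ v ∈ U, HasFDerivAt t (fderiv ℝ t v) v := fun v hv =>
    ((he v hv).1.differentiableAt (by simp)).hasFDerivAt
  have dyt := fun v hv => (dy v hv).hasFDerivAt.comp v (dt v hv)
  have yy : ∀ v ∈ U, herm (y (t v)) (y (t v)) = 0 := fun v hv => by
    simp [hy, herm_self, (he v hv).2.2.2.2.1]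
  have yy' : ∀ v ∈ U, herm (y (t v)) (0, deriv q (t v)) = 0 := fun v hv => by
    simp [hy, herm, (he v hv).2.2.2.2.2.2.1]
  have n1 : ∀ v ∈ U, ∀ s, ‖herm (y s) (Zv c Φ v)‖ ^ 2 - κ s =
      ‖c v‖ ^ 2 * horo (q s) (κ s) (Φ v) := fun v hv s => hy ▸ conv_horo (hc v hv).2 _ _
  have n2 : ∀ v ∈ U, ‖l v‖ ^ 2 = κ (t v) := fun v hv => by
    rw [hl, ← sub_eq_zero, n1 v hv, (he v hv).2.2.2.2.2.2.2.2.1, mul_zero]
  have l0 : ∀ v ∈ U, l v ≠ 0 := fun v hv e => (he v hv).2.2.2.2.2.2.2.1.ne' (by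
    rw [← n2 v hv, e]; simp)
  have dl : ∀ v ∈ U, DifferentiableAt ℝ l v ∧ ∀ X,
      (starRingEnd ℂ (l v) * herm (y (t v)) (fderiv ℝ (Zv c Φ) v X)).re = 0 := fun v hv => by
    obtain ⟨L, a1, a2⟩ := herm_der (dyt v hv).differentiableAt (k.dZ' hv)
    obtain ⟨L', b1, b2⟩ := herm_der (dy v hv).differentiableAt
      (differentiableAt_const (Zv c Φ v))
    have dκ := ((he v hv).2.2.2.1.differentiableAt (by simp)).hasDerivAt
    refine ⟨hl ▸ a1.differentiableAt, fun X => ?_⟩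
    have c1 := DFunLike.congr_fun (a1.norm_sq.unique ((dκ.comp_hasFDerivAt v
      (dt v hv)).congr_of_eventuallyEq (k.ev hv fun w hw => by simpa [hl] using n2 w hw))) X
    have c2 := (b1.hasDerivAt.norm_sq.sub dκ).deriv
    have c3 : deriv (fun s => ‖herm (y s) (Zv c Φ v)‖ ^ 2 - κ s) (t v) = 0 := by
      simp only [n1 v hv]
      rw [deriv_const_mul_field, (he v hv).2.2.2.2.2.2.2.2.2, mul_zero]
    rw [(dyt v hv).fderiv] at a2
    rw [(dy v hv).hasFDerivAt.fderiv] at b2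
    have c4 := c3.symm.trans c2
    simp only [a2, b2, two_smul, add_apply, smul_apply, ContinuousLinearMap.comp_apply,
      ContinuousLinearMap.toSpanSingleton_apply, innerSL_apply_apply, herm_rl, Complex.inner,
      Function.comp_apply, fderiv_fun_const, Pi.zero_apply, zero_apply,
      smul_eq_mul, Complex.ofReal_one, one_mul,
      show ∀ x : ℂ × E, herm x 0 = 0 from fun x => (hL x).map_zero, add_zero, add_mul, mul_assoc,
      Complex.add_re, Complex.re_ofReal_mul] at c1 c4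
    rw [hl, mul_comm]
    linear_combination c1 / 2 + fderiv ℝ t v X / 2 * c4
  have m1 : ∀ v ∈ U, herm ((-(starRingEnd ℂ (l v))⁻¹) • y (t v)) (Zv c Φ v) = -1 ∧
      herm ((-(starRingEnd ℂ (l v))⁻¹) • y (t v)) ((-(starRingEnd ℂ (l v))⁻¹) • y (t v)) = 0 ∧
      ∀ X, (herm ((-(starRingEnd ℂ (l v))⁻¹) • y (t v)) (hor (Zv c Φ) v X)).re = 0 :=
    fun v hv => by
      have e : herm (y (t v)) (Zv c Φ v) = l v := by rw [hl]
      have e0 := l0 v hv
      simp only [herm_smul_left, herm_smul_right, hor_apply, herm_add_right, yy v hv, e, map_neg,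
        map_inv₀, Complex.conj_conj, mul_zero, true_and]
      refine ⟨by field_simp, fun X => ?_⟩
      have : -(l v)⁻¹ * herm (y (t v)) (fderiv ℝ (Zv c Φ) v X) +
          herm (Zv c Φ v) (fderiv ℝ (Zv c Φ) v X) * (-(l v)⁻¹ * l v) =
          -((Complex.normSq (l v))⁻¹ : ℝ) * (starRingEnd ℂ (l v) *
            herm (y (t v)) (fderiv ℝ (Zv c Φ) v X)) - herm (Zv c Φ v) (fderiv ℝ (Zv c Φ) v X) := by
        have : starRingEnd ℂ (l v) ≠ 0 := by simpa using e0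
        rw [Complex.ofReal_inv, Complex.normSq_eq_conj_mul_self]
        field_simp
        ring
      rw [this, Complex.sub_re, k.tau hv, neg_mul, Complex.neg_re, Complex.re_ofReal_mul,
        (dl v hv).2]
      simp
  intro u hu
  have dm : DifferentiableAt ℝ (fun v => -(starRingEnd ℂ (l v))⁻¹) u :=
    ((Complex.conjCLE.differentiableAt.comp u (dl u hu).1).inv (by simpa using l0 u hu)).neg
  have dM : HasFDerivAt (fun v => (-(starRingEnd ℂ (l v))⁻¹) • y (t v)) _ u :=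
    dm.hasFDerivAt.smul (dyt u hu)
  have m2 : ∀ X, herm ((-(starRingEnd ℂ (l u))⁻¹) • y (t u))
      (fderiv ℝ (fun v => (-(starRingEnd ℂ (l v))⁻¹) • y (t v)) u X) = 0 := fun X => by
    rw [dM.fderiv]
    simp only [add_apply, smul_apply,
      ContinuousLinearMap.comp_apply, ContinuousLinearMap.smulRight_apply,
      ContinuousLinearMap.toSpanSingleton_apply, herm_smul_left,
      herm_add_right, herm_smul_right, herm_rr, yy u hu, yy' u hu, mul_zero, add_zero]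
  rcases conv_alt k hu (m1 u hu).1 (m1 u hu).2.1 (m1 u hu).2.2 with e | e
  · exact conv_one h hr hd hc hu m1 dM.continuousAt m2 e
  · have := conv_one h.neg (neg_ne_zero.2 hr) hd hc hu m1 dM.continuousAt m2
      (by rw [e, Nv_neg]; abel)
    rwa [neg_sq] at this

end Pool.Agent.Lib.MP_bb4e29_gt
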