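import Pool.Agent.Lib.MP_bb4e29_gt.Cl.Frame
import Pool.Agent.Lib.MP_bb4e29_gt.Cl.Alg

/-! Three principal curvatures force the map to the null cone to have rank one. -/

namespace Pool.Agent.Lib.MP_bb4e29_gt

open Filter Topology Module
open scoped ContDiff

variable {E : Type} [NormedAddCommGroup E] [InnerProductSpace ℂ E]
  {P : Type} [NormedAddCommGroup P] [NormedSpace ℝ P]
  {T : Type} [NormedAddCommGroup T] [NormedSpace ℝ T]

/-- `Y` factors through the submersion `t`. -/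
structure Ch (U : Set P) (Y : P → ℂ × E) (D : P → P →ₗ[ℝ] P) (t : P → T) (y : T → ℂ × E) :
    Prop where
  ct : ∀ u ∈ U, ContDiffAt ℝ ∞ t u
  st : ∀ u ∈ U, Function.Surjective (fderiv ℝ t u)
  cy : ∀ u ∈ U, ContDiffAt ℝ ∞ y (t u)
  eq : ∀ u ∈ U, Y u = y (t u)
  ker : ∀ u ∈ U, ∀ X, D u X = 0 → fderiv ℝ t u X = 0
  leg : ∀ u ∈ U, ∀ X, herm (Y u) (fderiv ℝ Y u X) = 0

namespace Lf

variable {U : Set P} {Z Y : P → ℂ × E} {D : P → P →ₗ[ℝ] P} {t : P → T} {y : T → ℂ × E}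
  (h : Lf U Z Y D) (c : Ch U Y D t y) {u : P}
include h c

theorem chain (hu : u ∈ U) (X : P) : fderiv ℝ Y u X = fderiv ℝ y (t u) (fderiv ℝ t u X) := by
  have e : Y =ᶠ[𝓝 u] y ∘ t := h.ev hu c.eq
  rw [e.fderiv_eq, fderiv_comp u ((c.cy u hu).differentiableAt (by simp))
    ((c.ct u hu).differentiableAt (by simp))]
  rfl

theorem c_leg (hu : u ∈ U) (a : T) : herm (Y u) (fderiv ℝ y (t u) a) = 0 := by
  obtain ⟨X, rfl⟩ := c.st u hu a
  rw [← h.chain c hu, c.leg u hu]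

theorem c_sig (hu : u ∈ U) (a : T) : (herm (Z u) (fderiv ℝ y (t u) a)).re = 0 := by
  obtain ⟨X, rfl⟩ := c.st u hu a
  rw [← h.chain c hu, h.sig hu]

theorem c_real (hu : u ∈ U) (a b : T) :
    (herm (fderiv ℝ y (t u) a) (fderiv ℝ y (t u) b)).im = 0 := by
  obtain ⟨X, rfl⟩ := c.st u hu a
  obtain ⟨X', rfl⟩ := c.st u hu b
  rw [← h.chain c hu, ← h.chain c hu, h.real c.leg hu]

theorem c_pos (hu : u ∈ U) (a : T) (ha : a ≠ 0) :
    0 < (herm (fderiv ℝ y (t u) a) (fderiv ℝ y (t u) a)).re := by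
  obtain ⟨X, rfl⟩ := c.st u hu a
  rw [← h.chain c hu, ← h.hd c.leg hu]
  exact h.pos hu _ fun e => ha (c.ker u hu X e)

omit h in
theorem c_der (hu : u ∈ U) (b : T) : DifferentiableAt ℝ (fun v => fderiv ℝ y (t v) b) u ∧
    ∀ X, fderiv ℝ (fun v => fderiv ℝ y (t v) b) u X =
      fderiv ℝ (fderiv ℝ y) (t u) (fderiv ℝ t u X) b := by
  obtain ⟨a1, a2⟩ := snd_der (c.cy u hu) b
  have a3 : DifferentiableAt ℝ t u := (c.ct u hu).differentiableAt (by simp)
  refine ⟨a1.comp u a3, fun X => ?_⟩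
  rw [← a2]
  exact DFunLike.congr_fun (fderiv_comp u a1 a3) X

theorem c_yy (hu : u ∈ U) (a b : T) : herm (Y u) (fderiv ℝ (fderiv ℝ y) (t u) a b) =
    -herm (fderiv ℝ y (t u) a) (fderiv ℝ y (t u) b) := by
  obtain ⟨X, rfl⟩ := c.st u hu a
  obtain ⟨a1, a2⟩ := c_der c hu b
  have := herm_cst (h.dY' hu) a1 (h.ev hu fun v hv => h.c_leg c hv b) X
  rw [a2, h.chain c hu] at this
  exact eq_neg_of_add_eq_zero_right this

theorem c_op (hu : u ∈ U) (X : P) (b : T) :
    (herm (fderiv ℝ y (t u) (fderiv ℝ t u X)) (fderiv ℝ y (t u) b)).re =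
      (herm (Z u) (fderiv ℝ y (t u) (fderiv ℝ t u (D u X)))).im *
        (herm (Z u) (fderiv ℝ y (t u) b)).im -
      (herm (Z u) (fderiv ℝ (fderiv ℝ y) (t u) (fderiv ℝ t u (D u X)) b)).re := by
  obtain ⟨a1, a2⟩ := c_der c hu b
  have h1 := herm_cst_re (h.dZ' hu) a1 (h.ev hu fun v hv => h.c_sig c hv b) (D u X)
  have h2 := h.rel hu (D u X)
  rw [h.yh hu, h.yd hu, c.leg u hu, zero_add, h.chain c hu, ← herm_conj (Z u)] at h2
  have h3 : herm (hor Z u (D u X)) (fderiv ℝ y (t u) b) =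
      herm (fderiv ℝ y (t u) (fderiv ℝ t u X)) (fderiv ℝ y (t u) b) := by
    rw [← h.dY u hu, herm_add_left, herm_smul_left, h.c_leg c hu, mul_zero, add_zero, h.chain c hu]
  rw [hor_apply, herm_add_left, herm_smul_left, eq_neg_of_add_eq_zero_right h2] at h3
  have h4 := congrArg Complex.re h3
  rw [a2] at h1
  simp only [Complex.add_re, Complex.mul_re, map_neg, Complex.conj_conj, Complex.neg_re,
    Complex.neg_im, h.c_sig c hu] at h1 h4
  linarith

theorem c_bar (hu : u ∈ U) :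
    ∃ B : T →ₗ[ℝ] T, ∀ X, B (fderiv ℝ t u X) = fderiv ℝ t u (D u X) := by
  obtain ⟨σ, hσ⟩ := LinearMap.exists_rightInverse_of_surjective (fderiv ℝ t u : P →ₗ[ℝ] T)
    (LinearMap.range_eq_top.2 (c.st u hu))
  refine ⟨(fderiv ℝ t u : P →ₗ[ℝ] T) ∘ₗ D u ∘ₗ σ, fun X => ?_⟩
  have h1 : fderiv ℝ t u (σ (fderiv ℝ t u X) - X) = 0 := by
    rw [map_sub, sub_eq_zero]
    exact DFunLike.congr_fun hσ _
  have h2 : D u (σ (fderiv ℝ t u X) - X) = 0 := h.inj u hu _ (by
    rw [← h.dY u hu, h.chain c hu, h1, map_zero]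
    simp [herm])
  rw [map_sub, sub_eq_zero] at h2
  exact congrArg (fderiv ℝ t u) h2

theorem c_tan (hu : u ∈ U) {s : ℂ × E} (h1 : herm (Y u) s = 0)
    (h2 : ∀ a, (herm s (fderiv ℝ y (t u) a)).re = 0) :
    ∃ (X : P) (x : ℝ), fderiv ℝ t u X = 0 ∧ fderiv ℝ Z u X = s + x • Y u := by
  obtain ⟨x, hx⟩ : ∃ x, x = (herm (Z u) s).re := ⟨_, rfl⟩
  obtain ⟨b, hb⟩ : ∃ b, b = (herm (Z u) s).im := ⟨_, rfl⟩
  have e0 : herm (Z u) s = x + b * Complex.I := by rw [hx, hb, Complex.re_add_im]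
  have e1 : herm (Y u) (s + x • Y u + (b * Complex.I) • Z u) = -(b * Complex.I) := by
    rw [herm_add_right, herm_add_right, herm_rr, herm_smul_right, h1, h.yy u hu, h.yz u hu]
    ring
  obtain ⟨X, e⟩ := h.sur u hu (s + x • Y u + (b * Complex.I) • Z u)
    (by rw [herm_add_right, herm_add_right, herm_rr, herm_smul_right, e0, h.zy hu, h.zz u hu]; ring)
    (by rw [e1]; simp)
  have h3 : D u X = 0 := h.ker hu fun X' => by
    have e2 : herm (s + x • Y u + (b * Complex.I) • Z u) (hor Z u (D u X')) =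
        herm s (hor Z u (D u X')) := by
      rw [herm_add_left, herm_add_left, herm_rl, herm_smul_left, h.zh hu, h.yd hu, c.leg u hu]
      ring
    have e3 : herm s (Y u) = 0 := by rw [← herm_conj, h1, map_zero]
    rw [gm_apply, e, e2, ← h.dY u hu, herm_add_right, herm_smul_right, e3, mul_zero, add_zero,
      h.chain c hu, h2]
  have h4 := c.ker u hu X h3
  refine ⟨X, x, h4, ?_⟩
  have h5 := h.rel hu X
  rw [h.chain c hu, h4, map_zero, h.yh hu, e, e1] at h5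
  have h6 : herm (Z u) (fderiv ℝ Z u X) = b * Complex.I := by
    have : herm (0 : ℂ × E) (Z u) = 0 := by simp [herm]
    linear_combination h5 - this
  rw [hor_apply, h6] at e
  exact add_right_cancel e

variable [FiniteDimensional ℂ E] [FiniteDimensional ℝ P] [FiniteDimensional ℝ T]

theorem c_leaf (hu : u ∈ U) {m : ℂ × E} (h1 : herm (Y u) m = 0)
    (h2 : ∀ a, (herm m (fderiv ℝ y (t u) a)).re = 0) :
    ∀ᶠ s : ℝ in 𝓝 0, ∃ v ∈ U, ∃ x : ℝ, t v = t u ∧ Z v = Z u + s • m - x • Y u := by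
  have : FiniteDimensional ℝ E := FiniteDimensional.trans ℝ ℂ E
  have := FiniteDimensional.complete ℝ P
  have := FiniteDimensional.complete ℝ T
  let S : Submodule ℝ (ℂ × E) :=
    { carrier := {s | herm (Y u) s = 0 ∧ ∀ a, (herm s (fderiv ℝ y (t u) a)).re = 0}
      add_mem' := fun p q => ⟨by rw [herm_add_right, p.1, q.1, add_zero], fun a => by
        rw [herm_add_left, Complex.add_re, p.2, q.2, add_zero]⟩
      zero_mem' := by simp [herm]
      smul_mem' := fun r _ p => ⟨by rw [herm_rr, p.1, mul_zero], fun a => by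
        rw [herm_rl, Complex.re_ofReal_mul, p.2, mul_zero]⟩ }
  have := FiniteDimensional.complete ℝ S
  obtain ⟨π₀, hπ⟩ := LinearMap.exists_leftInverse_of_injective S.subtype S.ker_subtype
  let π := LinearMap.toContinuousLinearMap π₀
  have p1 : ∀ s (hs : s ∈ S), π s = ⟨s, hs⟩ := fun s hs => DFunLike.congr_fun hπ ⟨s, hs⟩
  have hY : Y u ∈ S := ⟨h.yy u hu, fun a => by rw [h.c_leg c hu, Complex.zero_re]⟩
  have d1 := ((c.ct u hu).hasStrictFDerivAt (by simp)).comp (u, (0 : ℝ))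
    (hasStrictFDerivAt_fst (𝕜 := ℝ) (p := (u, (0 : ℝ))))
  have d2 := ((h.cZ u hu).hasStrictFDerivAt (by simp)).comp (u, (0 : ℝ))
    (hasStrictFDerivAt_fst (𝕜 := ℝ) (p := (u, (0 : ℝ))))
  have d3 := (hasStrictFDerivAt_snd (𝕜 := ℝ) (p := (u, (0 : ℝ)))).smul_const (Y u)
  have d4 := d1.prodMk (π.hasStrictFDerivAt.comp _ ((d2.add d3).sub_const (Z u)))
  have d5 := d4.map_nhds_eq_of_surj (LinearMap.range_eq_top.2 fun ⟨a, s⟩ => by
    obtain ⟨X, hX⟩ := c.st u hu a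
    obtain ⟨X', x, e1, e2⟩ := h.c_tan c hu (s - π (fderiv ℝ Z u X)).2.1 (s - π (fderiv ℝ Z u X)).2.2
    refine ⟨(X + X', -x), Prod.ext ?_ ?_⟩
    · change fderiv ℝ t u (X + X') = a
      rw [map_add, hX, e1, add_zero]
    · change π (fderiv ℝ Z u (X + X') + (-x) • Y u) = s
      rw [map_add (fderiv ℝ Z u), e2, neg_smul, add_assoc, add_neg_cancel_right, map_add,
        p1 _ (s - π (fderiv ℝ Z u X)).2, add_sub_cancel])
  have d6 : Tendsto (fun s : ℝ => (t u, π (s • m))) (𝓝 0)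
      (𝓝 (t u, π (Z u + (0 : ℝ) • Y u - Z u))) := by
    refine Continuous.tendsto' (by fun_prop) _ _ ?_
    simp
  have d7 := d6.eventually (d5 ▸ image_mem_map (prod_mem_nhds (h.op.mem_nhds hu) univ_mem))
  refine d7.mono fun s ⟨⟨v, x⟩, hv, e⟩ => ⟨v, hv.1, x, congrArg Prod.fst e, ?_⟩
  have e1 : t v = t u := congrArg Prod.fst e
  have e2 : π (Z v + x • Y u - Z u) = π (s • m) := congrArg Prod.snd e
  have e3 : Y v = Y u := by rw [c.eq v hv.1, e1, c.eq u hu]
  have m1 : Z v - Z u ∈ S := ⟨by rw [herm_sub_right, h.yz u hu, ← e3, h.yz v hv.1, sub_self],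
    fun a => by rw [herm_sub_left, Complex.sub_re, h.c_sig c hu, ← e1, h.c_sig c hv.1, sub_self]⟩
  have m2 : Z v + x • Y u - Z u ∈ S := by
    rw [add_sub_right_comm]
    exact S.add_mem m1 (S.smul_mem x hY)
  rw [p1 _ m2, p1 _ (S.smul_mem s ⟨h1, h2⟩), Subtype.mk.injEq] at e2
  rw [← e2]
  abel

theorem core (cub : ∀ u ∈ U, ∃ ν : ℝ, ∀ X, D u (D u (D u X) + (1 - ν) • D u X - ν • X) = 0)
    (hu : u ∈ U) : finrank ℝ T ≤ 1 := by
  by_contra hT
  let dy : T →ₗ[ℝ] ℂ × E := fderiv ℝ y (t u)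
  let d2 : T →ₗ[ℝ] T →ₗ[ℝ] ℂ × E := (fderiv ℝ (fderiv ℝ y) (t u)).toLinearMap₁₂
  let G : T →ₗ[ℝ] T →ₗ[ℝ] ℝ := (hL.compr₂ Complex.reLm).compl₁₂ dy dy
  let β : T →ₗ[ℝ] ℝ := (hL.compr₂ Complex.imLm (Z u)).comp dy
  have gs : ∀ a b, G a b = G b a := fun a b => by
    change (herm _ _).re = (herm _ _).re
    rw [← herm_conj, Complex.conj_re]
  have : Nontrivial T := Module.finrank_pos_iff.1 (by omega : 0 < finrank ℝ T)
  obtain ⟨v, hv⟩ := exists_ne (0 : T)
  obtain ⟨e, hve, he⟩ := (Submodule.ne_bot_iff _).1 (LinearMap.ker_ne_bot_of_finrank_lt (f := G v)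
    (by rw [finrank_self]; omega))
  let m : ℂ × E := Complex.I • dy v
  have m1 : herm (Y u) m = 0 := by
    rw [herm_smul_right]
    exact mul_eq_zero_of_right _ (h.c_leg c hu v)
  have m2 : ∀ a, herm m (dy a) = -(G v a * Complex.I) := fun a => by
    rw [herm_smul_left, ← Complex.re_add_im (herm _ _), show (herm (dy v) (dy a)).im = 0 from
      h.c_real c hu v a, Complex.conj_I]
    change _ = -(((herm (dy v) (dy a)).re : ℂ) * _)
    push_cast
    ring
  have m3 : herm m m = G v v := by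
    rw [herm_smul_right, m2]
    linear_combination -(G v v : ℂ) * Complex.I_mul_I
  refine pencil G ((LinearMap.mul ℝ ℝ).compl₁₂ β β - d2.compr₂ (hL.compr₂ Complex.reLm (Z u)))
    ((herm (Z u) m).re • G - (LinearMap.mul ℝ ℝ).compl₁₂ β (G v) -
      (LinearMap.mul ℝ ℝ).compl₁₂ (G v) β - d2.compr₂ (hL.compr₂ Complex.reLm m))
    gs (h.c_pos c hu) hv he hve ?_
  filter_upwards [h.c_leaf c hu m1 fun a => (congrArg Complex.re (m2 a)).trans (by simp)] with s hs
  obtain ⟨u', hu', x, e1, e2⟩ := hs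
  obtain ⟨B, hB⟩ := h.c_bar c hu'
  obtain ⟨ν, hν⟩ := cub u' hu'
  refine ⟨B, ν, fun a b => ?_, fun a => ?_⟩
  · obtain ⟨X, rfl⟩ := c.st u' hu' a
    have k1 := h.c_op c hu' X b
    have m4 : herm m (Y u) = 0 := by rw [← herm_conj, m1, map_zero]
    have k2 := congrArg Complex.re (h.zz u' hu')
    have k3 : (herm m (Z u)).re = (herm (Z u) m).re := by rw [← herm_conj, Complex.conj_re]
    simp only [e2, herm_sub_left, herm_add_left, herm_sub_right, herm_add_right, herm_rl, herm_rr,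
      h.zz u hu, h.zy hu, h.yz u hu, h.yy u hu, m1, m3, m4, Complex.add_re, Complex.sub_re,
      Complex.re_ofReal_mul, Complex.ofReal_re, Complex.neg_re, Complex.one_re, Complex.zero_re,
      k3] at k2
    have k4 : ∀ a, (herm (Z u') (dy a)).im = β a - s * G v a := fun a => by
      rw [e2, herm_sub_left, herm_add_left, herm_rl, herm_rl, m2,
        show herm (Y u) (dy a) = 0 from h.c_leg c hu a]
      change _ = (herm (Z u) (dy a)).im - _
      simp [sub_eq_add_neg]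
    have k5 : ∀ a, (herm (Z u') (d2 a b)).re =
        (herm (Z u) (d2 a b)).re + s * (herm m (d2 a b)).re + x * G a b := fun a => by
      rw [e2, herm_sub_left, herm_add_left, herm_rl, herm_rl,
        show herm (Y u) (d2 a b) = _ from h.c_yy c hu a b]
      change _ = _ + x * (herm (dy a) (dy b)).re
      simp [dy]
    rw [e1, ← hB] at k1
    have k6 : G (fderiv ℝ t u' X) b = (β (B (fderiv ℝ t u' X)) - s * G v (B (fderiv ℝ t u' X))) *
        (β b - s * G v b) - ((herm (Z u) (d2 (B (fderiv ℝ t u' X)) b)).re + s *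
          (herm m (d2 (B (fderiv ℝ t u' X)) b)).re + x * G (B (fderiv ℝ t u' X)) b) := by
      rw [← k4, ← k4, ← k5]
      exact k1
    change _ = β _ * β b - (herm (Z u) (d2 _ b)).re + s * ((herm (Z u) m).re * G _ b -
      β _ * G v b - G v _ * β b - (herm m (d2 _ b)).re) + _
    linear_combination k6 - G (B (fderiv ℝ t u' X)) b / 2 * k2
  · obtain ⟨X, rfl⟩ := c.st u' hu' a
    rw [hB, hB, ← map_smul (fderiv ℝ t u'), ← map_smul (fderiv ℝ t u'), ← map_add, ← map_sub, hB,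
      hν, map_zero]

end Lf

end Pool.Agent.Lib.MP_bb4e29_gt
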