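import Pool.Agent.Lib.MP_bb4e29_gt.Defs

namespace Pool.Agent.Lib.MP_bb4e29_gt

open scoped ContDiff

variable {E : Type} [NormedAddCommGroup E] [InnerProductSpace ℂ E]
  {P : Type} [NormedAddCommGroup P] [NormedSpace ℝ P]

/-- `Φ` is a smooth immersion of the open set `U` into `ℂH^n` with unit normal field `ξ`, shape
operator `A` (`dΦ (A X) = -∇_X ξ`) and structure vector field `W` (`dΦ W = -J ξ`). -/
def IsPiece (r : ℝ) (U : Set P) (Φ ξ : P → E) (A : P → P →ₗ[ℝ] P) (W : P → P) : Prop :=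
  IsOpen U ∧ ContDiffOn ℝ ∞ Φ U ∧ ContDiffOn ℝ ∞ ξ U ∧ ∀ u ∈ U,
    ‖Φ u‖ < 1 ∧ Function.Injective (fderiv ℝ Φ u) ∧
    met r (Φ u) (ξ u) (ξ u) = 1 ∧ (∀ X, met r (Φ u) (ξ u) (fderiv ℝ Φ u X) = 0) ∧
    (∀ X w, met r (Φ u) (fderiv ℝ Φ u (A u X)) w =
      -(met r (Φ u) (fderiv ℝ ξ u X) w + koszul r (Φ u) (fderiv ℝ Φ u X) (ξ u) w)) ∧
    fderiv ℝ Φ u (W u) = -(Complex.I • ξ u)

/-- The equation of the horosphere with centre `q` at infinity and size `κ`. -/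
noncomputable def horo (q : E) (κ : ℝ) (z : E) : ℝ :=
  ‖1 - (inner ℂ q z : ℂ)‖ ^ 2 - κ * (1 - ‖z‖ ^ 2)

/-- `Φ` maps `V` into the envelope of a family of horospheres whose centres `q s` form a regular
Legendrian curve of the sphere at infinity; the point `Φ u` touches the horosphere number `t u`,
and `t` is a submersion. -/
def IsEnvelope (V : Set P) (Φ : P → E) : Prop :=
  ∃ (t : P → ℝ) (q : ℝ → E) (κ : ℝ → ℝ), ∀ u ∈ V,
    ContDiffAt ℝ ∞ t u ∧ fderiv ℝ t u ≠ 0 ∧ ContDiffAt ℝ ∞ q (t u) ∧ ContDiffAt ℝ ∞ κ (t u) ∧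
    ‖q (t u)‖ = 1 ∧ deriv q (t u) ≠ 0 ∧ (inner ℂ (q (t u)) (deriv q (t u)) : ℂ) = 0 ∧
    0 < κ (t u) ∧ horo (q (t u)) (κ (t u)) (Φ u) = 0 ∧
    deriv (fun s => horo (q s) (κ s) (Φ u)) (t u) = 0

end Pool.Agent.Lib.MP_bb4e29_gt
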