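import Pool.Agent.Lib.MP_bb4e29_gt.Lift

/-! Lifts of a hypersurface to the hyperboloid and to the null cone. -/

namespace Pool.Agent.Lib.MP_bb4e29_gt

open Filter Topology
open scoped ContDiff

variable {E : Type} [NormedAddCommGroup E] [InnerProductSpace ℂ E]

theorem herm_rl (c : ℝ) (x y : ℂ × E) : herm (c • x) y = c * herm x y := by
  rw [← Complex.coe_smul, herm_smul_left, Complex.conj_ofReal]

theorem herm_rr (c : ℝ) (x y : ℂ × E) : herm x (c • y) = c * herm x y := by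
  rw [← Complex.coe_smul, herm_smul_right]

/-- The form as a real bilinear map. -/
noncomputable def hL : (ℂ × E) →ₗ[ℝ] (ℂ × E) →ₗ[ℝ] ℂ :=
  LinearMap.mk₂ ℝ herm herm_add_left (fun c x y => herm_rl c x y) herm_add_right
    fun c x y => herm_rr c x y

theorem herm_bdd : IsBoundedBilinearMap ℝ fun p : (ℂ × E) × ℂ × E => herm p.1 p.2 where
  add_left := herm_add_left
  smul_left := herm_rl
  add_right := herm_add_right
  smul_right := herm_rr
  bound := ⟨2, two_pos, fun x y => by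
    refine (norm_add_le _ _).trans ?_
    rw [norm_neg, norm_mul, Complex.norm_conj]
    have h1 := mul_le_mul (norm_fst_le x) (norm_fst_le y) (norm_nonneg _) (norm_nonneg _)
    have h2 := mul_le_mul (norm_snd_le x) (norm_snd_le y) (norm_nonneg _) (norm_nonneg _)
    linarith [norm_inner_le_norm (𝕜 := ℂ) x.2 y.2]⟩

theorem herm_pos {z v : ℂ × E} (hz : herm z z = -1) (hv : herm z v = 0) (h0 : v ≠ 0) :
    0 < (herm v v).re := by
  have h1 := met_DD 1 hz v v
  rw [hv, mul_zero, add_zero, one_pow, one_mul] at h1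
  have h2 : DD z v ≠ 0 := fun e => by
    have h3 := DD_eq_zero (fst_ne hz) e
    rw [h3, herm_smul_right, hz, mul_neg_one, neg_eq_zero] at hv
    exact h0 (by rw [h3, hv, zero_smul])
  have h3 : 0 < 1 - ‖proj z‖ ^ 2 := by nlinarith [proj_lt hz, norm_nonneg (proj z)]
  rw [← h1, met, ← normsq_eq, ← inner_conj_symm (DD z v) (proj z), ← normsq_cast,
    Complex.ofReal_re]
  have := norm_pos_iff.2 h2
  positivity

variable {P : Type} [NormedAddCommGroup P] [NormedSpace ℝ P]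

theorem herm_der {f g : P → ℂ × E} {u : P} (hf : DifferentiableAt ℝ f u)
    (hg : DifferentiableAt ℝ g u) : ∃ L : P →L[ℝ] ℂ, HasFDerivAt (fun v => herm (f v) (g v)) L u ∧
      ∀ X, L X = herm (fderiv ℝ f u X) (g u) + herm (f u) (fderiv ℝ g u X) := by
  have h := HasFDerivAt.comp (f := fun v => (f v, g v)) u (herm_bdd.hasFDerivAt (f u, g u))
    (hf.hasFDerivAt.prodMk hg.hasFDerivAt)
  exact ⟨_, h, fun _ => add_comm _ _⟩

theorem herm_cst {f g : P → ℂ × E} {u : P} (hf : DifferentiableAt ℝ f u)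
    (hg : DifferentiableAt ℝ g u) {c : ℂ} (h : ∀ᶠ v in 𝓝 u, herm (f v) (g v) = c) (X : P) :
    herm (fderiv ℝ f u X) (g u) + herm (f u) (fderiv ℝ g u X) = 0 := by
  obtain ⟨L, h1, h2⟩ := herm_der hf hg
  rw [← h2, h1.unique ((hasFDerivAt_const c u).congr_of_eventuallyEq h)]
  rfl

theorem herm_cst_re {f g : P → ℂ × E} {u : P} (hf : DifferentiableAt ℝ f u)
    (hg : DifferentiableAt ℝ g u) {c : ℝ} (h : ∀ᶠ v in 𝓝 u, (herm (f v) (g v)).re = c) (X : P) :
    (herm (fderiv ℝ f u X) (g u) + herm (f u) (fderiv ℝ g u X)).re = 0 := by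
  obtain ⟨L, h1, h2⟩ := herm_der hf hg
  have h3 := (Complex.reCLM.hasFDerivAt.comp u h1).unique
    ((hasFDerivAt_const c u).congr_of_eventuallyEq h)
  rw [← h2]
  exact DFunLike.congr_fun h3 X

theorem snd_der {F : Type} [NormedAddCommGroup F] [NormedSpace ℝ F] {f : P → F} {u : P}
    (hf : ContDiffAt ℝ ∞ f u) (Y : P) : DifferentiableAt ℝ (fun v => fderiv ℝ f v Y) u ∧
      ∀ X, fderiv ℝ (fun v => fderiv ℝ f v Y) u X = fderiv ℝ (fderiv ℝ f) u X Y := by
  have h1 : DifferentiableAt ℝ (fderiv ℝ f) u :=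
    (hf.fderiv_right (m := 1) (by norm_cast)).differentiableAt one_ne_zero
  refine ⟨h1.clm_apply (differentiableAt_const Y), fun X => ?_⟩
  rw [fderiv_clm_apply h1 (differentiableAt_const Y)]
  simp

theorem snd_sym {F : Type} [NormedAddCommGroup F] [NormedSpace ℝ F] {f : P → F} {u : P}
    (hf : ContDiffAt ℝ ∞ f u) (X Y : P) :
    fderiv ℝ (fderiv ℝ f) u X Y = fderiv ℝ (fderiv ℝ f) u Y X :=
  hf.isSymmSndFDerivAt (by simp; norm_cast) X Y

/-- The horizontal part of the differential. -/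
noncomputable def hor (Z : P → ℂ × E) (u : P) : P →ₗ[ℝ] ℂ × E :=
  (fderiv ℝ Z u : P →ₗ[ℝ] ℂ × E) +
    ((hL (Z u)).comp (fderiv ℝ Z u : P →ₗ[ℝ] ℂ × E)).smulRight (Z u)

theorem hor_apply (Z : P → ℂ × E) (u X : P) :
    hor Z u X = fderiv ℝ Z u X + herm (Z u) (fderiv ℝ Z u X) • Z u := rfl

/-- The induced metric. -/
noncomputable def gm (Z : P → ℂ × E) (u : P) : P →ₗ[ℝ] P →ₗ[ℝ] ℝ :=
  (hL.compr₂ Complex.reLm).compl₁₂ (hor Z u) (hor Z u)

theorem gm_apply (Z : P → ℂ × E) (u X X' : P) :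
    gm Z u X X' = (herm (hor Z u X) (hor Z u X')).re := rfl

theorem gm_symm (Z : P → ℂ × E) (u X X' : P) : gm Z u X X' = gm Z u X' X := by
  rw [gm_apply, gm_apply, ← herm_conj, Complex.conj_re]

/-- `Z` lifts a hypersurface, `Y - Z` lifts its unit normal, `D` is the differential of `Y`. -/
structure Lf (U : Set P) (Z Y : P → ℂ × E) (D : P → P →ₗ[ℝ] P) : Prop where
  op : IsOpen U
  cZ : ∀ u ∈ U, ContDiffAt ℝ ∞ Z u
  cY : ∀ u ∈ U, ContDiffAt ℝ ∞ Y u
  zz : ∀ u ∈ U, herm (Z u) (Z u) = -1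
  yz : ∀ u ∈ U, herm (Y u) (Z u) = -1
  yy : ∀ u ∈ U, herm (Y u) (Y u) = 0
  inj : ∀ u ∈ U, ∀ X, hor Z u X = 0 → X = 0
  sur : ∀ u ∈ U, ∀ v, herm (Z u) v = 0 → (herm (Y u) v).re = 0 → ∃ X, hor Z u X = v
  nor : ∀ u ∈ U, ∀ X, (herm (Y u) (hor Z u X)).re = 0
  dY : ∀ u ∈ U, ∀ X, fderiv ℝ Y u X + herm (Z u) (fderiv ℝ Y u X) • Y u = hor Z u (D u X)

namespace Lf

variable {U : Set P} {Z Y : P → ℂ × E} {D : P → P →ₗ[ℝ] P} (h : Lf U Z Y D) {u : P}
include h

theorem mono {V : Set P} (hV : IsOpen V) (hs : V ⊆ U) : Lf V Z Y D :=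
  ⟨hV, fun u hu => h.cZ u (hs hu), fun u hu => h.cY u (hs hu), fun u hu => h.zz u (hs hu),
    fun u hu => h.yz u (hs hu), fun u hu => h.yy u (hs hu), fun u hu => h.inj u (hs hu),
    fun u hu => h.sur u (hs hu), fun u hu => h.nor u (hs hu), fun u hu => h.dY u (hs hu)⟩

theorem ev (hu : u ∈ U) {p : P → Prop} (hp : ∀ v ∈ U, p v) : ∀ᶠ v in 𝓝 u, p v :=
  mem_of_superset (h.op.mem_nhds hu) hp

theorem dZ' (hu : u ∈ U) : DifferentiableAt ℝ Z u := (h.cZ u hu).differentiableAt (by simp)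

theorem dY' (hu : u ∈ U) : DifferentiableAt ℝ Y u := (h.cY u hu).differentiableAt (by simp)

theorem zy (hu : u ∈ U) : herm (Z u) (Y u) = -1 := by
  rw [← herm_conj, h.yz u hu, map_neg, map_one]

theorem tau (hu : u ∈ U) (X : P) : (herm (Z u) (fderiv ℝ Z u X)).re = 0 := by
  have := congrArg Complex.re (herm_cst (h.dZ' hu) (h.dZ' hu) (h.ev hu h.zz) X)
  rw [← herm_conj (Z u), Complex.add_re, Complex.conj_re, Complex.zero_re] at this
  linarith

theorem zh (hu : u ∈ U) (X : P) : herm (Z u) (hor Z u X) = 0 := by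
  rw [hor_apply, herm_add_right, herm_smul_right, h.zz u hu, mul_neg_one, add_neg_cancel]

theorem pos (hu : u ∈ U) (X : P) (hX : X ≠ 0) : 0 < gm Z u X X :=
  herm_pos (h.zz u hu) (h.zh hu X) fun e => hX (h.inj u hu X e)

theorem yh (hu : u ∈ U) (X : P) :
    herm (Y u) (fderiv ℝ Z u X) = herm (Y u) (hor Z u X) + herm (Z u) (fderiv ℝ Z u X) := by
  rw [hor_apply, herm_add_right, herm_smul_right, h.yz u hu]
  ring

theorem rel (hu : u ∈ U) (X : P) : herm (fderiv ℝ Y u X) (Z u) + herm (Y u) (fderiv ℝ Z u X) = 0 :=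
  herm_cst (h.dY' hu) (h.dZ' hu) (h.ev hu h.yz) X

theorem yre (hu : u ∈ U) (X : P) : (herm (Y u) (fderiv ℝ Z u X)).re = 0 := by
  rw [h.yh hu, Complex.add_re, h.nor u hu, h.tau hu, add_zero]

theorem sig (hu : u ∈ U) (X : P) : (herm (Z u) (fderiv ℝ Y u X)).re = 0 := by
  have := congrArg Complex.re (h.rel hu X)
  rwa [Complex.add_re, h.yre hu, add_zero, ← herm_conj, Complex.conj_re] at this

theorem yd (hu : u ∈ U) (X : P) : herm (Y u) (hor Z u (D u X)) = herm (Y u) (fderiv ℝ Y u X) := by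
  rw [← h.dY u hu, herm_add_right, herm_smul_right, h.yy u hu, mul_zero, add_zero]

theorem sym (hu : u ∈ U) (X X' : P) : gm Z u (D u X) X' = gm Z u X (D u X') := by
  have key : ∀ X X', gm Z u (D u X) X' = (herm (Y u) (fderiv ℝ Z u X) *
      herm (Y u) (fderiv ℝ Z u X') * (-1) - herm (Y u) (fderiv ℝ (fderiv ℝ Z) u X X')).re := by
    intro X X'
    obtain ⟨a1, a2⟩ := snd_der (h.cZ u hu) X'
    have h1 := herm_cst_re (h.dY' hu) a1 (h.ev hu fun v hv => h.yre hv X') X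
    have h2 := h.rel hu X
    have h3 : herm (hor Z u (D u X)) (Z u) = 0 := by rw [← herm_conj, h.zh hu, map_zero]
    rw [a2] at h1
    rw [gm_apply, hor_apply Z u X', herm_add_right, herm_smul_right, h3, mul_zero, add_zero,
      ← h.dY u hu, herm_add_left, herm_smul_left, herm_conj, eq_neg_of_add_eq_zero_left h2]
    simp only [Complex.add_re, Complex.sub_re] at h1 ⊢
    rw [neg_mul, mul_neg_one]
    linarith
  rw [gm_symm Z u X, key, key, snd_sym (h.cZ u hu) X, mul_comm (herm (Y u) (fderiv ℝ Z u X))]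

theorem ker (hu : u ∈ U) {X : P} (hX : ∀ X', gm Z u X (D u X') = 0) : D u X = 0 := by
  by_contra h0
  exact (h.pos hu _ h0).ne' ((h.sym hu _ _).trans (hX _))

theorem real (leg : ∀ u ∈ U, ∀ X, herm (Y u) (fderiv ℝ Y u X) = 0) (hu : u ∈ U) (X X' : P) :
    (herm (fderiv ℝ Y u X) (fderiv ℝ Y u X')).im = 0 := by
  have key : ∀ X X', herm (fderiv ℝ Y u X) (fderiv ℝ Y u X') +
      herm (Y u) (fderiv ℝ (fderiv ℝ Y) u X X') = 0 := fun X X' => by
    obtain ⟨a1, a2⟩ := snd_der (h.cY u hu) X'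
    rw [← a2]
    exact herm_cst (h.dY' hu) a1 (h.ev hu fun v hv => leg v hv X') X
  have h1 := congrArg Complex.im (key X X')
  have h2 := congrArg Complex.im (key X' X)
  rw [snd_sym (h.cY u hu) X', ← herm_conj (fderiv ℝ Y u X)] at h2
  simp only [Complex.add_im, Complex.conj_im, Complex.zero_im] at h1 h2
  linarith

theorem hd (leg : ∀ u ∈ U, ∀ X, herm (Y u) (fderiv ℝ Y u X) = 0) (hu : u ∈ U) (X X' : P) :
    herm (hor Z u (D u X)) (hor Z u (D u X')) = herm (fderiv ℝ Y u X) (fderiv ℝ Y u X') := by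
  have h1 : herm (fderiv ℝ Y u X) (Y u) = 0 := by rw [← herm_conj, leg u hu, map_zero]
  rw [← h.dY u hu X, herm_add_left, herm_smul_left, h.yd hu, leg u hu, mul_zero, add_zero,
    ← h.dY u hu X', herm_add_right, herm_smul_right, h1, mul_zero, add_zero]

theorem phi (leg : ∀ u ∈ U, ∀ X, herm (Y u) (fderiv ℝ Y u X) = 0) (hu : u ∈ U) {w : P}
    (hw : hor Z u w = -Complex.I • (Y u - Z u)) (X : P) (hX : D u X ≠ 0) :
    ∃ X', X' ≠ 0 ∧ D u X' = 0 ∧ gm Z u X' w = 0 := by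
  obtain ⟨X', e⟩ := h.sur u hu (Complex.I • hor Z u (D u X))
    (by rw [herm_smul_right, h.zh hu, mul_zero])
    (by rw [herm_smul_right, h.yd hu, leg u hu, mul_zero, Complex.zero_re])
  refine ⟨X', fun h0 => hX (h.inj u hu _ ?_), h.ker hu fun X'' => ?_, ?_⟩
  · rw [h0, map_zero] at e
    exact (smul_eq_zero.1 e.symm).resolve_left Complex.I_ne_zero
  · rw [gm_apply, e, herm_smul_left, h.hd leg hu]
    simp [h.real leg hu]
  · rw [gm_symm, gm_apply, e, hw, herm_smul_left, herm_smul_right, herm_sub_left, h.yd hu, leg u hu,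
      h.zh hu]
    simp

end Lf

end Pool.Agent.Lib.MP_bb4e29_gt
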