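import Pool.Agent.Lib.MP_bb4e29_gt.Cl.Defs
import Pool.Agent.Lib.MP_bb4e29_gt.Cl.Frame

/-! The explicit lifts. -/

namespace Pool.Agent.Lib.MP_bb4e29_gt

open scoped ContDiff

variable {E : Type} [NormedAddCommGroup E] [InnerProductSpace ℂ E]
  {P : Type} [NormedAddCommGroup P] [NormedSpace ℝ P]

/-- The lift of the point. -/
noncomputable def Zv (c : P → ℂ) (Φ : P → E) (u : P) : ℂ × E := c u • ((1 : ℂ), Φ u)

/-- The horizontal lift of `r ξ`. -/
noncomputable def Nv (r : ℝ) (c : P → ℂ) (Φ ξ : P → E) (u : P) : ℂ × E :=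
  (c u * r) • ((0 : ℂ), ξ u) + herm (Zv c Φ u) ((c u * r) • ((0 : ℂ), ξ u)) • Zv c Φ u

/-- The operator `1 - r A + η ⊗ r W`. -/
noncomputable def Dv (r : ℝ) (Z : P → ℂ × E) (A : P → P →ₗ[ℝ] P) (W : P → P) (u : P) :
    P →ₗ[ℝ] P := LinearMap.id - r • A u + (gm Z u (r • W u)).smulRight (r • W u)

theorem Dv_apply (r : ℝ) (Z : P → ℂ × E) (A : P → P →ₗ[ℝ] P) (W : P → P) (u X : P) :
    Dv r Z A W u X = X - (r • A u) X + gm Z u X (r • W u) • r • W u := by
  rw [gm_symm]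
  rfl

omit [NormedAddCommGroup P] [NormedSpace ℝ P] in
theorem Nv_neg (r : ℝ) (c : P → ℂ) (Φ ξ : P → E) (u : P) :
    Nv (-r) c Φ ξ u = -Nv r c Φ ξ u := by
  have e : (c u * (-r : ℝ)) • ((0 : ℂ), ξ u) = (-1 : ℂ) • (c u * r) • ((0 : ℂ), ξ u) := by
    rw [smul_smul, Complex.ofReal_neg, mul_neg, neg_one_mul]
  rw [Nv, Nv, e, herm_smul_right, neg_one_mul, neg_smul, neg_smul, one_smul, neg_add]

variable {r : ℝ} {U : Set P} {Φ ξ : P → E} {A : P → P →ₗ[ℝ] P} {W : P → P}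

theorem IsPiece.neg (h : IsPiece r U Φ ξ A W) : IsPiece (-r) U Φ ξ A W := by
  have e : (met (-r) : E → E → E → ℝ) = met r := by
    funext z u v
    simp only [met, neg_sq]
  simpa only [IsPiece, koszul, e] using h

theorem IsPiece.mono (h : IsPiece r U Φ ξ A W) {V : Set P} (hV : IsOpen V) (hs : V ⊆ U) :
    IsPiece r V Φ ξ A W := ⟨hV, h.2.1.mono hs, h.2.2.1.mono hs, fun u hu => h.2.2.2 u (hs hu)⟩

namespace Lf

variable {Z Y : P → ℂ × E} {D : P → P →ₗ[ℝ] P} (h : Lf U Z Y D) {u w : P}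
include h

theorem gw (hu : u ∈ U) (hw : hor Z u w = -Complex.I • (Y u - Z u)) : gm Z u w w = 1 := by
  rw [gm_apply, hw, herm_smul_left, herm_smul_right, herm_sub_left, herm_sub_right, herm_sub_right,
    h.yy u hu, h.yz u hu, h.zy hu, h.zz u hu]
  simp

theorem leg_iff (hu : u ∈ U) (hw : hor Z u w = -Complex.I • (Y u - Z u)) :
    (∀ X, herm (Y u) (fderiv ℝ Y u X) = 0) ↔ D u w = 0 := by
  have e : ∀ X, gm Z u w (D u X) = -(herm (Y u) (fderiv ℝ Y u X)).im := fun X => by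
    rw [gm_apply, hw, herm_smul_left, herm_sub_left, h.zh hu, h.yd hu]
    simp
  refine ⟨fun k => h.ker hu fun X => by rw [e, k, Complex.zero_im, neg_zero], fun k X => ?_⟩
  refine Complex.ext (by rw [← h.yd hu, h.nor u hu, Complex.zero_re]) ?_
  rw [Complex.zero_im, ← neg_eq_zero, ← e, ← h.sym hu, k, map_zero, LinearMap.zero_apply]

end Lf

theorem Dv_w {Z : P → ℂ × E} {u : P} (hr : r ≠ 0) (hw : gm Z u (r • W u) (r • W u) = 1) :
    Dv r Z A W u (r • W u) = 0 ↔ A u (W u) = (2 / r) • W u := by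
  rw [Dv_apply, hw, one_smul, LinearMap.smul_apply, map_smul]
  constructor
  · intro e
    have e1 : (r * r) • A u (W u) = (2 * r) • W u := by
      rw [mul_smul, mul_smul, two_smul, ← sub_eq_zero, ← neg_eq_zero, ← e]
      abel
    rw [← one_smul ℝ (A u (W u)), ← inv_mul_cancel₀ (mul_ne_zero hr hr), mul_smul, e1, smul_smul]
    congr 1
    field_simp
  · intro e
    rw [e, smul_smul r (2 / r), mul_div_cancel₀ _ hr, smul_comm r (2 : ℝ), two_smul]
    abel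

end Pool.Agent.Lib.MP_bb4e29_gt
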