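import Pool.Agent.Lib.MP_bb4e29_gt.Cl.Core
import Pool.Agent.Lib.MP_bb4e29_gt.Cl.LDefs

/-! From a curve in the null cone to the envelope in the ball model. -/

namespace Pool.Agent.Lib.MP_bb4e29_gt

open Filter Topology Module
open scoped ContDiff

variable {E : Type} [NormedAddCommGroup E] [InnerProductSpace ℂ E]
  {P : Type} [NormedAddCommGroup P] [NormedSpace ℝ P]

theorem env_norm {y : ℂ × E} (h : herm y y = 0) : ‖y.2‖ = ‖y.1‖ := by
  rw [herm_self, Complex.ofReal_eq_zero, sub_eq_zero] at h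
  exact (sq_eq_sq₀ (norm_nonneg _) (norm_nonneg _)).1 h

theorem env_ne {y z : ℂ × E} (h : herm y y = 0) (hz : herm y z = -1) : y.1 ≠ 0 := fun e => by
  have h2 := env_norm h
  rw [e, norm_zero, norm_eq_zero] at h2
  simp [herm, e, h2] at hz

theorem env_horo {y : ℂ × E} (h0 : y.1 ≠ 0) {c : ℂ} {z : E} (hc : ‖c‖ ^ 2 * (1 - ‖z‖ ^ 2) = 1) :
    horo (proj y) (‖y.1‖ ^ 2)⁻¹ z =
      (‖y.1‖ ^ 2)⁻¹ * (1 - ‖z‖ ^ 2) * (‖herm y (c • ((1 : ℂ), z))‖ ^ 2 - 1) := by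
  have h0' : starRingEnd ℂ y.1 ≠ 0 := by simpa using h0
  have h1 : herm y (c • ((1 : ℂ), z)) =
      -(c * starRingEnd ℂ y.1) * (1 - (inner ℂ (proj y) z : ℂ)) := by
    rw [herm_smul_right, herm, proj, inner_smul_left, map_inv₀]
    field_simp
    ring
  have h2 : ‖y.1‖ ≠ 0 := norm_ne_zero_iff.2 h0
  rw [h1, norm_mul, norm_neg, norm_mul, Complex.norm_conj, horo]
  field_simp
  linear_combination -(‖y.1‖ ^ 2 * ‖1 - (inner ℂ (proj y) z : ℂ)‖ ^ 2) * hc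

theorem env_der {y : ℝ → ℂ × E} {y' : ℂ × E} {s : ℝ} (hy : HasDerivAt y y' s)
    (h0 : (y s).1 ≠ 0) : HasDerivAt (fun s => proj (y s)) (DD (y s) y') s := by
  have h1 : HasDerivAt (fun x => y (x + s)) y' 0 := HasDerivAt.comp_add_const 0 s (by rwa [zero_add])
  have h2 := hasDerivAt_proj h1 (by rwa [zero_add])
  rw [zero_add, ← sub_self s] at h2
  simpa using h2.comp_sub_const s s

theorem Lf.env {U : Set P} {c : P → ℂ} {Φ : P → E} {Y : P → ℂ × E} {D : P → P →ₗ[ℝ] P}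
    {t : P → ℝ} {y : ℝ → ℂ × E} (h : Lf U (Zv c Φ) Y D) (k : Ch U Y D t y)
    (hc : ∀ u ∈ U, ‖c u‖ ^ 2 * (1 - ‖Φ u‖ ^ 2) = 1) : IsEnvelope U Φ := by
  refine ⟨t, fun s => proj (y s), fun s => (‖(y s).1‖ ^ 2)⁻¹, fun u hu => ?_⟩
  have yy : herm (y (t u)) (y (t u)) = 0 := k.eq u hu ▸ h.yy u hu
  have yz : herm (y (t u)) (Zv c Φ u) = -1 := k.eq u hu ▸ h.yz u hu
  have y0 := env_ne yy yz
  have n0 : ‖(y (t u)).1‖ ≠ 0 := norm_ne_zero_iff.2 y0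
  have c1 : ContDiffAt ℝ ∞ (fun s => (y s).1) (t u) := (k.cy u hu).fst
  have c2 : ContDiffAt ℝ ∞ (fun s => (‖(y s).1‖ ^ 2)⁻¹) (t u) :=
    (c1.norm_sq ℝ).inv (pow_ne_zero 2 n0)
  have d1 : HasDerivAt y (fderiv ℝ y (t u) 1) (t u) :=
    ((k.cy u hu).differentiableAt (by simp)).hasFDerivAt.hasDerivAt
  have d2 := (env_der d1 y0).deriv
  have l1 : herm (y (t u)) (fderiv ℝ y (t u) 1) = 0 := k.eq u hu ▸ h.c_leg k hu 1
  have ev : ∀ᶠ s in 𝓝 (t u), (y s).1 ≠ 0 := c1.continuousAt.eventually_ne y0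
  refine ⟨k.ct u hu, fun e => ?_, (c1.inv y0).smul (k.cy u hu).snd, c2, ?_, ?_, ?_,
    by positivity, ?_, ?_⟩
  · obtain ⟨X, hX⟩ := k.st u hu 1
    simp [e] at hX
  · change ‖(y (t u)).1⁻¹ • (y (t u)).2‖ = 1
    rw [norm_smul, env_norm yy, norm_inv, inv_mul_cancel₀ n0]
  · rw [d2]
    intro e
    have h1 := h.c_pos k hu 1 one_ne_zero
    rw [DD_eq_zero y0 e, herm_smul_left, herm_smul_right, yy] at h1
    simp at h1
  · rw [d2]
    simp only [proj, DD, inner_smul_left, inner_smul_right, inner_sub_right, inner_snd, yy, l1]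
    field_simp
    ring
  · have := env_horo y0 (hc u hu)
    rw [show c u • ((1 : ℂ), Φ u) = Zv c Φ u from rfl, yz] at this
    simpa using this
  · have e1 : (fun s => horo (proj (y s)) (‖(y s).1‖ ^ 2)⁻¹ (Φ u)) =ᶠ[𝓝 (t u)] fun s =>
        (‖(y s).1‖ ^ 2)⁻¹ * (1 - ‖Φ u‖ ^ 2) * (‖herm (y s) (Zv c Φ u)‖ ^ 2 - 1) :=
      ev.mono fun s hs => env_horo hs (hc u hu)
    obtain ⟨L, a1, a2⟩ := herm_der d1.differentiableAt (differentiableAt_const (Zv c Φ u))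
    have a3 := ((c2.differentiableAt (by simp)).hasDerivAt.mul_const (1 - ‖Φ u‖ ^ 2)).fun_mul
      (a1.hasDerivAt.norm_sq.sub_const 1)
    have a4 : (L 1).re = 0 := by
      rw [a2, ← herm_conj, Complex.add_re, Complex.conj_re, h.c_sig k hu]
      simp [herm]
    rw [e1.deriv_eq, a3.deriv, yz]
    simp [a4]

end Pool.Agent.Lib.MP_bb4e29_gt
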