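import Pool.Agent.Lib.MP_bb4e29_gt.Cl.LDefs

/-! A hypersurface of the ball model gives lifted data. -/

namespace Pool.Agent.Lib.MP_bb4e29_gt

open Module
open scoped ContDiff

variable {E : Type} [NormedAddCommGroup E] [InnerProductSpace ℂ E]
  {P : Type} [NormedAddCommGroup P] [NormedSpace ℝ P]
  {r : ℝ} {U : Set P} {Φ ξ : P → E} {A : P → P →ₗ[ℝ] P} {W : P → P}

theorem liftG_DD (z v : ℂ × E) : DD z v = z.1⁻¹ • v.2 - (v.1 * z.1⁻¹ * z.1⁻¹) • z.2 := rfl

theorem liftG_proj (z : ℂ × E) : proj z = z.1⁻¹ • z.2 := rfl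

theorem liftG_inj {z v : ℂ × E} (hz : herm z z = -1) (hv : herm z v = 0) (e : DD z v = 0) :
    v = 0 := by
  have h3 := DD_eq_zero (fst_ne hz) e
  rw [h3, herm_smul_right, hz, mul_neg_one, neg_eq_zero] at hv
  rw [h3, hv, zero_smul]

theorem liftG_met {z w : ℂ × E} (hz : herm z z = -1) (hw : herm z w = 0) (v : ℂ × E) :
    met r (proj z) (DD z v) (DD z w) = r ^ 2 * (herm v w).re := by
  rw [met_DD r hz, hw, mul_zero, add_zero]

theorem liftG_pos (hr : r ≠ 0) {z v : E} (hz : ‖z‖ < 1) (h : met r z v v = 0) : v = 0 := by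
  by_contra h0
  have h3 : 0 < 1 - ‖z‖ ^ 2 := by nlinarith [norm_nonneg z]
  have h4 := norm_pos_iff.2 h0
  refine (?_ : 0 < met r z v v).ne' h
  rw [met, ← normsq_eq, ← inner_conj_symm v z, ← normsq_cast, Complex.ofReal_re]
  positivity

theorem liftG_line {F : Type} [NormedAddCommGroup F] [NormedSpace ℝ F] {f : P → F} {u : P}
    (hf : DifferentiableAt ℝ f u) (X : P) :
    HasDerivAt (fun s : ℝ => f (u + s • X)) (fderiv ℝ f u X) 0 :=
  hf.hasFDerivAt.hasLineDerivAt X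

theorem liftG_ev (hU : IsOpen U) {u : P} (hu : u ∈ U) (X : P) :
    ∀ᶠ s in nhds (0 : ℝ), u + s • X ∈ U := by
  have h : Continuous fun s : ℝ => u + s • X := by fun_prop
  exact h.continuousAt.eventually_mem (by simpa using hU.mem_nhds hu)

theorem liftG_zh {Z : P → ℂ × E} {u : P} (hz : herm (Z u) (Z u) = -1) (X : P) :
    herm (Z u) (hor Z u X) = 0 := by
  rw [hor_apply, herm_add_right, herm_smul_right, hz, mul_neg_one, add_neg_cancel]

theorem liftG_sur [FiniteDimensional ℂ E] [FiniteDimensional ℝ P]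
    (hd : finrank ℝ P + 1 = 2 * finrank ℂ E) {z n : ℂ × E} (hz : herm z z = -1)
    (hzn : herm z n = 0) (hn : herm n n = 1) (H : P →ₗ[ℝ] ℂ × E) (hi : ∀ X, H X = 0 → X = 0)
    (h1 : ∀ X, herm z (H X) = 0) (h2 : ∀ X, (herm (z + n) (H X)).re = 0) (v : ℂ × E)
    (v1 : herm z v = 0) (v2 : (herm (z + n) v).re = 0) : ∃ X, H X = v := by
  let L : (ℂ × E) →ₗ[ℝ] ℂ × ℝ := (hL z).prod (Complex.reLm.comp (hL (z + n)))
  have hL' : ∀ w, L w = (herm z w, (herm (z + n) w).re) := fun _ => rfl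
  have hnz : herm n z = 0 := by rw [← herm_conj, hzn, map_zero]
  have hs : LinearMap.range L = ⊤ := by
    refine LinearMap.range_eq_top.2 fun a => ⟨(-a.1) • z + ((a.2 - a.1.re : ℝ) : ℂ) • n, ?_⟩
    rw [hL']
    simp only [herm_add_right, herm_add_left, herm_smul_right, hz, hzn, hn, hnz]
    ext <;> simp
  have e1 := L.finrank_range_add_finrank_ker
  rw [hs, finrank_top, finrank_prod, finrank_prod, Complex.finrank_real_complex, finrank_self,
    finrank_real_of_complex E] at e1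
  have e2 := LinearMap.finrank_range_of_inj ((injective_iff_map_eq_zero H).2 hi)
  have e3 : LinearMap.range H = LinearMap.ker L := by
    refine Submodule.eq_of_le_of_finrank_eq ?_ (by omega)
    rintro _ ⟨X, rfl⟩
    rw [LinearMap.mem_ker, hL', h1, h2]
    rfl
  have e4 : v ∈ LinearMap.range H := by
    rw [e3, LinearMap.mem_ker, hL', v1, v2]
    rfl
  exact e4

omit [NormedAddCommGroup P] [NormedSpace ℝ P] in
theorem liftG_pt {c : P → ℂ} {u : P} (hc : ‖c u‖ ^ 2 * (1 - ‖Φ u‖ ^ 2) = 1) :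
    herm (Zv c Φ u) (Zv c Φ u) = -1 ∧ proj (Zv c Φ u) = Φ u ∧
      DD (Zv c Φ u) (Nv r c Φ ξ u) = (r : ℂ) • ξ u ∧ herm (Zv c Φ u) (Nv r c Φ ξ u) = 0 := by
  have h0 : c u ≠ 0 := fun e => by simp [e] at hc
  have e1 : (Zv c Φ u).1 = c u := mul_one _
  have e2 : (Zv c Φ u).2 = c u • Φ u := rfl
  have hz : herm (Zv c Φ u) (Zv c Φ u) = -1 := by
    rw [herm_self, e1, e2, norm_smul, mul_pow]
    exact_mod_cast (by linarith : ‖c u‖ ^ 2 * ‖Φ u‖ ^ 2 - ‖c u‖ ^ 2 = -1)
  refine ⟨hz, by rw [liftG_proj, e1, e2, inv_smul_smul₀ h0], ?_, ?_⟩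
  · rw [Nv, DD_add, DD_smul, DD_smul, DD_self (fst_ne hz), smul_zero, add_zero, liftG_DD, e1,
      zero_mul, zero_mul, zero_smul, sub_zero, smul_smul, mul_right_comm, mul_inv_cancel₀ h0, one_mul]
  · rw [Nv, herm_add_right, herm_smul_right _ _ (Zv c Φ u), hz, mul_neg_one, add_neg_cancel]

theorem IsPiece.lift [FiniteDimensional ℂ E] [FiniteDimensional ℝ P] (h : IsPiece r U Φ ξ A W)
    (hr : r ≠ 0) (hd : finrank ℝ P + 1 = 2 * finrank ℂ E) {c : P → ℂ}
    (hc : ∀ u ∈ U, ContDiffAt ℝ ∞ c u ∧ ‖c u‖ ^ 2 * (1 - ‖Φ u‖ ^ 2) = 1) :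
    Lf U (Zv c Φ) (fun u => Zv c Φ u + Nv r c Φ ξ u) (Dv r (Zv c Φ) A W) ∧
      ∀ u ∈ U, hor (Zv c Φ) u (r • W u) = -Complex.I • (Zv c Φ u + Nv r c Φ ξ u - Zv c Φ u) := by
  obtain ⟨hU, cΦ, cξ, hp⟩ := h
  have hpt := fun u hu => liftG_pt (r := r) (ξ := ξ) (hc u hu).2
  have cZ : ∀ u ∈ U, ContDiffAt ℝ ∞ (Zv c Φ) u := fun u hu =>
    (hc u hu).1.smul (contDiffAt_const.prodMk (cΦ.contDiffAt (hU.mem_nhds hu)))
  have cN : ∀ u ∈ U, ContDiffAt ℝ ∞ (Nv r c Φ ξ) u := fun u hu => by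
    have a1 : ContDiffAt ℝ ∞ (fun u => (c u * r) • ((0 : ℂ), ξ u)) u :=
      ((hc u hu).1.mul contDiffAt_const).smul
        (contDiffAt_const.prodMk (cξ.contDiffAt (hU.mem_nhds hu)))
    exact a1.add ((herm_bdd.contDiff.contDiffAt.comp u ((cZ u hu).prodMk a1)).smul (cZ u hu))
  generalize Nv r c Φ ξ = N at hpt cN ⊢
  generalize Zv c Φ = Z at hpt cZ ⊢
  have zz := fun u hu => (hpt u hu).1
  have zp := fun u hu => (hpt u hu).2.1
  have zd := fun u hu => (hpt u hu).2.2.1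
  have zn := fun u hu => (hpt u hu).2.2.2
  have nz : ∀ u ∈ U, herm (N u) (Z u) = 0 := fun u hu => by rw [← herm_conj, zn u hu, map_zero]
  have dZ : ∀ u ∈ U, DifferentiableAt ℝ Z u := fun u hu => (cZ u hu).differentiableAt (by simp)
  have dN : ∀ u ∈ U, DifferentiableAt ℝ N u := fun u hu => (cN u hu).differentiableAt (by simp)
  have hr' : (r : ℂ) ≠ 0 := Complex.ofReal_ne_zero.2 hr
  have d1 : ∀ u ∈ U, ∀ X, fderiv ℝ Φ u X = DD (Z u) (fderiv ℝ Z u X) := fun u hu X => by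
    have a1 := hasDerivAt_proj (liftG_line (dZ u hu) X)
      (by rw [zero_smul, add_zero]; exact fst_ne (zz u hu))
    rw [zero_smul, add_zero] at a1
    exact fderiv_of_line ((cΦ.contDiffAt (hU.mem_nhds hu)).differentiableAt (by simp))
      (a1.congr_of_eventuallyEq ((liftG_ev hU hu X).mono fun s hs => (zp _ hs).symm))
  have d2 : ∀ u ∈ U, ∀ X, fderiv ℝ Φ u X = DD (Z u) (hor Z u X) := fun u hu X => by
    rw [hor_apply, DD_add, DD_smul, DD_self (fst_ne (zz u hu)), smul_zero, add_zero, d1 u hu]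
  have xi : ∀ u ∈ U, ξ u = DD (Z u) (((r⁻¹ : ℝ) : ℂ) • N u) := fun u hu => by
    rw [DD_smul, zd u hu, Complex.ofReal_inv, inv_smul_smul₀ hr']
  have nn : ∀ u ∈ U, herm (N u) (N u) = 1 := fun u hu => by
    have a1 := (hp u hu).2.2.1
    rw [← zp u hu, xi u hu, liftG_met (zz u hu) (by rw [herm_smul_right, zn u hu, mul_zero]),
      herm_smul_left, herm_smul_right, Complex.conj_ofReal, Complex.re_ofReal_mul,
      Complex.re_ofReal_mul, herm_self, Complex.ofReal_re] at a1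
    rw [herm_self]
    field_simp at a1
    rw [a1, Complex.ofReal_one]
  have nh : ∀ u ∈ U, ∀ X, (herm (N u) (hor Z u X)).re = 0 := fun u hu X => by
    have a1 := (hp u hu).2.2.2.1 X
    rw [← zp u hu, xi u hu, d2 u hu, liftG_met (zz u hu) (liftG_zh (zz u hu) X),
      herm_smul_left, Complex.conj_ofReal, Complex.re_ofReal_mul] at a1
    simpa [hr] using a1
  have nor : ∀ u ∈ U, ∀ X, (herm (Z u + N u) (hor Z u X)).re = 0 := fun u hu X => by
    rw [herm_add_left, liftG_zh (zz u hu), zero_add, nh u hu]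
  have inj : ∀ u ∈ U, ∀ X, hor Z u X = 0 → X = 0 := fun u hu X e => by
    refine (injective_iff_map_eq_zero _).1 (hp u hu).2.1 X ?_
    rw [d2 u hu, e]
    simp [liftG_DD]
  have hw : ∀ u ∈ U, hor Z u (r • W u) = -Complex.I • N u := fun u hu => by
    rw [neg_smul, ← add_eq_zero_iff_eq_neg]
    refine liftG_inj (zz u hu) ?_ ?_
    · rw [herm_add_right, liftG_zh (zz u hu), herm_smul_right, zn u hu, mul_zero, add_zero]
    · rw [DD_add, ← d2 u hu, map_smul, (hp u hu).2.2.2.2.2, DD_smul, zd u hu, ← Complex.coe_smul]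
      module
  refine ⟨⟨hU, cZ, fun u hu => (cZ u hu).add (cN u hu), zz, fun u hu => ?_, fun u hu => ?_, inj,
    fun u hu => liftG_sur hd (zz u hu) (zn u hu) (nn u hu) _ (inj u hu) (liftG_zh (zz u hu))
      (nor u hu), nor, fun u hu X => ?_⟩, fun u hu => by rw [add_sub_cancel_left, hw u hu]⟩
  · rw [herm_add_left, zz u hu, nz u hu, add_zero]
  · rw [herm_add_left, herm_add_right, herm_add_right, zz u hu, nz u hu, zn u hu, nn u hu]
    ring
  have s1 : fderiv ℝ Φ u (A u X) + (fderiv ℝ ξ u X + gam (Φ u) (fderiv ℝ Φ u X) (ξ u)) = 0 := by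
    refine liftG_pos hr (hp u hu).1 ?_
    generalize hv : fderiv ℝ Φ u (A u X) + (fderiv ℝ ξ u X + gam (Φ u) (fderiv ℝ Φ u X) (ξ u)) = v
    nth_rewrite 1 [← hv]
    rw [met_add, met_add, (hp u hu).2.2.2.2.1, koszul_eq r (hp u hu).1, neg_add_cancel]
  have s2 : (r : ℂ) • fderiv ℝ ξ u X = DD (Z u) (fderiv ℝ N u X) -
      ((fderiv ℝ Z u X).1 * (Z u).1⁻¹) • DD (Z u) (N u) -
      ((N u).1 * (Z u).1⁻¹) • DD (Z u) (fderiv ℝ Z u X) := by
    have a1 := hasDerivAt_DD (liftG_line (dZ u hu) X) (liftG_line (dN u hu) X)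
      (by rw [zero_smul, add_zero]; exact fst_ne (zz u hu))
    rw [zero_smul, add_zero] at a1
    have a2 := (liftG_line ((cξ.contDiffAt (hU.mem_nhds hu)).differentiableAt (by simp))
      X).const_smul (r : ℂ)
    exact a2.unique (a1.congr_of_eventuallyEq ((liftG_ev hU hu X).mono fun s hs => (zd _ hs).symm))
  have s3 := conn_lift (zz u hu) (fderiv ℝ Z u X) (N u)
  rw [zp u hu, zn u hu, zero_add] at s3
  have s4 : herm (Z u) (fderiv ℝ N u X) = -herm (hor Z u X) (N u) := by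
    rw [hor_apply, herm_add_left, herm_smul_left, zn u hu, mul_zero, add_zero]
    exact eq_neg_of_add_eq_zero_right
      (herm_cst (dZ u hu) (dN u hu) (Filter.mem_of_superset (hU.mem_nhds hu) zn) X)
  have s5 : herm (hor Z u X) (N u) = Complex.I * gm Z u X (r • W u) := by
    have a1 := nh u hu X
    rw [← herm_conj, Complex.conj_re] at a1
    rw [gm_apply, hw u hu, herm_smul_right]
    refine Complex.ext ?_ ?_ <;> simp [a1]
  have s6 : hor Z u ((r • A u) X) + fderiv ℝ N u X + herm (Z u) (fderiv ℝ Z u X) • N u +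
      (-herm (hor Z u X) (N u)) • Z u = 0 := by
    refine liftG_inj (zz u hu) ?_ ?_
    · rw [herm_add_right, herm_add_right, herm_add_right, liftG_zh (zz u hu), herm_smul_right,
        herm_smul_right, zn u hu, zz u hu, s4]
      ring
    · have a1 : gam (Φ u) (DD (Z u) (fderiv ℝ Z u X)) (DD (Z u) (N u)) =
          (r : ℂ) • gam (Φ u) (fderiv ℝ Φ u X) (ξ u) := by rw [← d1 u hu, zd u hu, gam_smul]
      rw [DD_add, DD_add, DD_add, DD_smul, DD_smul, DD_self (fst_ne (zz u hu)), ← d2 u hu,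
        LinearMap.smul_apply, map_smul, eq_neg_of_add_eq_zero_left s1, ← Complex.coe_smul,
        smul_neg, smul_add, ← a1, s2, s3]
      module
  rw [fderiv_fun_add (dZ u hu) (dN u hu), add_apply, herm_add_right, s4,
    Dv_apply, map_add, map_sub, map_smul (hor Z u) (gm Z u X (r • W u)), hw u hu,
    ← Complex.coe_smul (gm Z u X (r • W u)), s5, hor_apply Z u X]
  rw [s5] at s6
  linear_combination (norm := module) s6

end Pool.Agent.Lib.MP_bb4e29_gt
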