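import Mathlib

/-! Linear algebra of the shape operator. -/

namespace Pool.Agent.Lib.MP_bb4e29_gt

open Module

variable {P : Type} [AddCommGroup P] [Module ℝ P] [FiniteDimensional ℝ P]
  {g : P →ₗ[ℝ] P →ₗ[ℝ] ℝ} {B D : P →ₗ[ℝ] P} {w : P}

theorem spec_top (hs : ∀ a b, g a b = g b a) (hp : ∀ a, a ≠ 0 → 0 < g a a)
    (hB : ∀ a b, g (B a) b = g a (B b)) : ⨆ l : ℝ, End.eigenspace B l = ⊤ := by
  let c : InnerProductSpace.Core ℝ P :=
    { inner := fun a b => g a b
      conj_inner_symm := fun a b => hs b a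
      re_inner_nonneg := fun a => by
        by_cases h : a = 0
        · simp [h]
        · exact (hp a h).le
      add_left := fun a b c => by simp
      smul_left := fun a b r => by simp
      definite := fun a h => by
        by_contra e
        exact (hp a e).ne' h }
  let _ : NormedAddCommGroup P := c.toNormedAddCommGroup
  let _ : InnerProductSpace ℝ P := InnerProductSpace.ofCore c.toCore
  have h : LinearMap.IsSymmetric (𝕜 := ℝ) B := hB
  exact Submodule.orthogonal_eq_bot_iff.1 h.orthogonalComplement_iSup_eigenspaces_eq_bot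

omit [FiniteDimensional ℝ P] in
theorem spec_cubic_symm (hs : ∀ a b, g a b = g b a) (hD : ∀ X, D X = X - B X + g X w • w)
    (hy : ∀ a b, g (D a) b = g a (D b)) (a b : P) : g (B a) b = g a (B b) := by
  have h := hy a b
  rw [hD, hD] at h
  simp only [map_add, map_sub, map_smul, LinearMap.add_apply, LinearMap.sub_apply,
    LinearMap.smul_apply, smul_eq_mul] at h
  rw [hs w b] at h
  linarith

omit [FiniteDimensional ℝ P] in
theorem spec_cubic_orth (hB : ∀ a b, g (B a) b = g a (B b)) (h2 : B w = (2 : ℝ) • w) {X : P}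
    {μ : ℝ} (hX : B X = μ • X) (hμ : μ ≠ 2) : g X w = 0 := by
  have h := hB X w
  rw [hX, h2, map_smul, map_smul, LinearMap.smul_apply, smul_eq_mul, smul_eq_mul] at h
  exact (mul_eq_mul_right_iff.1 h).resolve_left hμ

omit [FiniteDimensional ℝ P] in
theorem spec_cubic_w (hw : g w w = 1) (hD : ∀ X, D X = X - B X + g X w • w)
    (h2 : B w = (2 : ℝ) • w) : D w = 0 := by
  rw [hD, h2, hw]
  module

theorem spec_cubic (hs : ∀ a b, g a b = g b a) (hp : ∀ a, a ≠ 0 → 0 < g a a) (hw : g w w = 1)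
    (hD : ∀ X, D X = X - B X + g X w • w) (hy : ∀ a b, g (D a) b = g a (D b))
    (h2 : B w = (2 : ℝ) • w) (hφ : ∀ X, D X ≠ 0 → ∃ X', X' ≠ 0 ∧ D X' = 0 ∧ g X' w = 0)
    (h3 : {l : ℝ | End.HasEigenvalue B l}.ncard = 3) :
    D ≠ 0 ∧ ∃ ν : ℝ, ∀ X, D (D (D X) + (1 - ν) • D X - ν • X) = 0 := by
  have hB := spec_cubic_symm hs hD hy
  have hw0 := spec_cubic_w hw hD h2
  have he : ∀ X (μ : ℝ), B X = μ • X → μ ≠ 2 → D X = (1 - μ) • X := fun X μ hX hμ => by
    rw [hD, hX, spec_cubic_orth hB h2 hX hμ]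
    module
  have hev : ∀ X μ, X ≠ 0 → B X = μ • X → End.HasEigenvalue B μ := fun X μ h0 hX =>
    End.hasEigenvalue_of_hasEigenvector ⟨End.mem_eigenspace_iff.2 hX, h0⟩
  have hD0 : D ≠ 0 := fun e => by
    have h : {l : ℝ | End.HasEigenvalue B l} ⊆ {1, 2} := fun μ hμ => by
      obtain ⟨X, hX⟩ := End.HasEigenvalue.exists_hasEigenvector hμ
      by_cases c : μ = 2
      · exact .inr c
      have := he X μ hX.apply_eq_smul c
      rw [e, LinearMap.zero_apply, eq_comm, smul_eq_zero] at this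
      exact .inl (sub_eq_zero.1 (this.resolve_right hX.2)).symm
    have := Set.ncard_le_ncard h
    rw [h3, Set.ncard_pair (by norm_num)] at this
    omega
  obtain ⟨l, hl⟩ : ∃ l, ∀ μ, End.HasEigenvalue B μ → μ = 1 ∨ μ = 2 ∨ μ = l := by
    by_cases c : ∃ l, End.HasEigenvalue B l ∧ l ≠ 1 ∧ l ≠ 2
    swap
    · exact ⟨0, fun μ hμ => by
        by_contra c'
        exact c ⟨μ, hμ, fun e => c' (.inl e), fun e => c' (.inr (.inl e))⟩⟩
    obtain ⟨l, l0, l1, l2⟩ := c
    obtain ⟨X, hX⟩ : ∃ X, D X ≠ 0 := not_forall.1 fun h => hD0 (LinearMap.ext h)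
    obtain ⟨Y, y0, y1, y2⟩ := hφ X hX
    have e1 : End.HasEigenvalue B 1 := hev Y 1 y0 (by
      rw [hD, y2, zero_smul, add_zero, sub_eq_zero] at y1
      rw [one_smul, ← y1])
    have e2 : End.HasEigenvalue B 2 := hev w 2 (fun e => by simp [e] at hw) h2
    have e3 : ({1, 2, l} : Set ℝ) = {l : ℝ | End.HasEigenvalue B l} :=
      Set.eq_of_subset_of_ncard_le (by rintro _ (rfl | rfl | rfl) <;> assumption)
        (h3.trans (Set.ncard_eq_three.2 ⟨1, 2, l, by norm_num, l1.symm, l2.symm, rfl⟩).symm).le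
        (Set.finite_of_ncard_ne_zero (by omega))
    exact ⟨l, fun μ hμ => (e3.ge hμ :)⟩
  refine ⟨hD0, 1 - l, fun X => ?_⟩
  have hX : X ∈ ⨆ l : ℝ, End.eigenspace B l := spec_top hs hp hB ▸ Submodule.mem_top
  induction hX using Submodule.iSup_induction' with
  | mem μ X hX =>
    rw [End.mem_eigenspace_iff] at hX
    by_cases h0 : X = 0
    · simp [h0]
    by_cases c : μ = 2
    · have e1 : D X = g X w • w - X := by
        rw [hD, hX, c]
        module
      have e2 : D (D X) = - D X := by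
        conv_lhs => rw [e1, map_sub, map_smul, hw0, smul_zero, zero_sub]
      simp only [map_add, map_sub, map_smul, map_neg, e2]
      module
    have e1 := he X μ hX c
    simp only [map_add, map_sub, map_smul, e1]
    rcases hl μ (hev X μ h0 hX) with rfl | e | rfl
    · module
    · exact absurd e c
    · module
  | zero => simp
  | add X Y _ _ h h' =>
    simp only [map_add, map_sub, map_smul] at h h' ⊢
    linear_combination (norm := module) h + h'

theorem spec_mult (hs : ∀ a b, g a b = g b a) (hw : g w w = 1)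
    (hD : ∀ X, D X = X - B X + g X w • w) (hy : ∀ a b, g (D a) b = g a (D b))
    (h2 : B w = (2 : ℝ) • w) (h1 : finrank ℝ (LinearMap.range D) = 1) :
    finrank ℝ (End.eigenspace B 1) + 2 = finrank ℝ P := by
  have hB := spec_cubic_symm hs hD hy
  have hw0 := spec_cubic_w hw hD h2
  have e1 := D.finrank_range_add_finrank_ker
  have e2 := (g w ∘ₗ (LinearMap.ker D).subtype).finrank_range_add_finrank_ker
  have e3 : LinearMap.range (g w ∘ₗ (LinearMap.ker D).subtype) = ⊤ :=
    LinearMap.range_eq_top.2 fun r => ⟨r • ⟨w, hw0⟩, by simp [hw]⟩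
  have e4 : (LinearMap.ker (g w ∘ₗ (LinearMap.ker D).subtype)).map (LinearMap.ker D).subtype =
      End.eigenspace B 1 := by
    ext X
    rw [End.mem_eigenspace_iff, Submodule.mem_map]
    refine ⟨?_, fun h => ?_⟩
    · rintro ⟨⟨Y, y1⟩, y2, rfl⟩
      have y3 : g Y w = 0 := (hs Y w).trans y2
      rw [LinearMap.mem_ker, hD, y3, zero_smul, add_zero, sub_eq_zero] at y1
      exact y1.symm.trans (one_smul _ _).symm
    · have y3 := spec_cubic_orth hB h2 h (by norm_num)
      refine ⟨⟨X, ?_⟩, (hs w X).trans y3, rfl⟩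
      rw [LinearMap.mem_ker, hD, h, y3]
      module
  rw [e3, finrank_top, finrank_self, ← Submodule.finrank_map_subtype_eq, e4] at e2
  omega

end Pool.Agent.Lib.MP_bb4e29_gt
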