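import Pool.Agent.Lib.MP_bb4e29_gt.Cl.Env
import Pool.Agent.Lib.MP_bb4e29_gt.Cl.CRank
import Pool.Agent.Lib.MP_bb4e29_gt.Cl.Spec
import Pool.Agent.Lib.MP_bb4e29_gt.Cl.Conv

/-! The classification. -/

namespace Pool.Agent.Lib.MP_bb4e29_gt

open Filter Topology Module
open scoped ContDiff

theorem eig_smul {P : Type} [AddCommGroup P] [Module ℝ P] (A : P →ₗ[ℝ] P) {r : ℝ} (hr : r ≠ 0)
    (l : ℝ) : End.eigenspace (r • A) (r * l) = End.eigenspace A l := by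
  ext X
  rw [End.mem_eigenspace_iff, End.mem_eigenspace_iff, LinearMap.smul_apply, mul_smul]
  exact smul_right_inj hr

theorem eig_card {P : Type} [AddCommGroup P] [Module ℝ P] (A : P →ₗ[ℝ] P) {r : ℝ} (hr : r ≠ 0) :
    {l : ℝ | End.HasEigenvalue (r • A) l}.ncard = {l : ℝ | End.HasEigenvalue A l}.ncard := by
  rw [← Set.ncard_image_of_injective {l : ℝ | End.HasEigenvalue A l} (mul_right_injective₀ hr)]
  congr 1
  ext l
  simp only [Set.mem_ofPred_eq, Set.mem_image, End.hasEigenvalue_iff]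
  refine ⟨fun h => ⟨r⁻¹ * l, ?_, mul_inv_cancel_left₀ hr l⟩, ?_⟩
  · rwa [← eig_smul A hr, mul_inv_cancel_left₀ hr]
  · rintro ⟨l, h, rfl⟩
    rwa [eig_smul A hr]

variable {E : Type} [NormedAddCommGroup E] [InnerProductSpace ℂ E] [FiniteDimensional ℂ E]
  {P : Type} [NormedAddCommGroup P] [NormedSpace ℝ P] [FiniteDimensional ℝ P]
  {r : ℝ} {U : Set P} {Φ ξ : P → E} {A : P → P →ₗ[ℝ] P} {W : P → P}

omit [FiniteDimensional ℂ E] [FiniteDimensional ℝ P] in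
theorem Lf.ker_eq {Z Y : P → ℂ × E} {D : P → P →ₗ[ℝ] P} (h : Lf U Z Y D)
    (hY : ∀ u ∈ U, (Y u).1.im = 0) {u : P} (hu : u ∈ U) (X : P) :
    fderiv ℝ Y u X = 0 ↔ D u X = 0 := by
  refine ⟨fun e => h.inj u hu _ (by rw [← h.dY u hu, e]; simp [herm]), fun e => ?_⟩
  have h1 := h.dY u hu X
  rw [e, map_zero] at h1
  have h2 : (fderiv ℝ Y u X).1.im = 0 :=
    DFunLike.congr_fun (((Complex.imCLM.comp (ContinuousLinearMap.fst ℝ ℂ E)).hasFDerivAt.comp u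
      (h.dY' hu).hasFDerivAt).unique ((hasFDerivAt_const (0 : ℝ) u).congr_of_eventuallyEq
        (h.ev hu hY))) X
  have h3 := congrArg (fun v : ℂ × E => v.1.im) h1
  simp only [Prod.fst_add, Prod.smul_fst, smul_eq_mul, Complex.add_im, Complex.mul_im, h2, hY u hu,
    h.sig hu, Prod.fst_zero, Complex.zero_im, zero_add, zero_mul, mul_eq_zero] at h3
  have h4 : herm (Z u) (fderiv ℝ Y u X) = 0 := Complex.ext (h.sig hu X) (h3.resolve_right fun e =>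
    env_ne (h.yy u hu) (h.yz u hu) (Complex.ext e (hY u hu)))
  rwa [h4, zero_smul, add_zero] at h1

theorem IsPiece.fwd (h : IsPiece r U Φ ξ A W) (hr : r ≠ 0)
    (hd : finrank ℝ P + 1 = 2 * finrank ℂ E) (h2 : ∀ u ∈ U, A u (W u) = (2 / r) • W u)
    (h3 : ∀ u ∈ U, {l : ℝ | End.HasEigenvalue (A u) l}.ncard = 3) {u₀ : P} (h₀ : u₀ ∈ U) :
    finrank ℝ (End.eigenspace (A u₀) r⁻¹) + 2 = finrank ℝ P ∧
      ∃ V, IsOpen V ∧ u₀ ∈ V ∧ V ⊆ U ∧ IsEnvelope V Φ := by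
  have : FiniteDimensional ℝ E := FiniteDimensional.trans ℝ ℂ E
  obtain ⟨c, hc, hY⟩ := h.gauge
  obtain ⟨L, hw⟩ := h.lift hr hd hc
  set Y := fun u => Zv c Φ u + Nv r c Φ ξ u
  set D := Dv r (Zv c Φ) A W
  have gw := fun u hu => L.gw hu (hw u hu)
  have leg : ∀ u ∈ U, ∀ X, herm (Y u) (fderiv ℝ Y u X) = 0 := fun u hu =>
    (L.leg_iff hu (hw u hu)).2 ((Dv_w hr (gw u hu)).2 (h2 u hu))
  have b2 : ∀ u ∈ U, (r • A u) (r • W u) = (2 : ℝ) • r • W u := fun u hu => by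
    rw [LinearMap.smul_apply, map_smul, h2 u hu, smul_smul r (2 / r), mul_div_cancel₀ _ hr,
      smul_comm]
  have cub := fun u hu => spec_cubic (gm_symm _ u) (L.pos hu) (gw u hu) (Dv_apply r _ A W u)
    (L.sym hu) (b2 u hu) (L.phi leg hu (hw u hu)) ((eig_card _ hr).trans (h3 u hu))
  have rk : ∀ u ∈ U, finrank ℝ (LinearMap.range (fderiv ℝ Y u : P →ₗ[ℝ] ℂ × E)) =
      finrank ℝ (LinearMap.range (D u)) := fun u hu => by
    have e1 := LinearMap.finrank_range_add_finrank_ker (fderiv ℝ Y u : P →ₗ[ℝ] ℂ × E)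
    have e2 := LinearMap.finrank_range_add_finrank_ker (D u)
    have e3 : LinearMap.ker (fderiv ℝ Y u : P →ₗ[ℝ] ℂ × E) = LinearMap.ker (D u) :=
      Submodule.ext fun X => L.ker_eq hY hu X
    rw [e3] at e1
    omega
  have cY : ContDiffOn ℝ ∞ Y U := fun u hu => (L.cY u hu).contDiffWithinAt
  have chart : ∀ (T : Type) [NormedAddCommGroup T] [NormedSpace ℝ T] [FiniteDimensional ℝ T],
      ∀ u ∈ U, finrank ℝ (LinearMap.range (D u)) = finrank ℝ T →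
      (∀ v ∈ U, finrank ℝ (LinearMap.range (D v)) ≤ finrank ℝ T) →
      ∃ (V : Set P) (t : P → T) (y : T → ℂ × E), IsOpen V ∧ u ∈ V ∧ V ⊆ U ∧ Ch V Y D t y := by
    intro T _ _ _ u hu e1 e2
    obtain ⟨V, t, y, a1, a2, a3, a4⟩ := crank h.1 cY hu ((rk u hu).trans e1)
      fun v hv => (rk v hv).trans_le (e2 v hv)
    exact ⟨V, t, y, a1, a2, a3, fun v hv => (a4 v hv).1, fun v hv => (a4 v hv).2.1,
      fun v hv => (a4 v hv).2.2.1, fun v hv => (a4 v hv).2.2.2.1,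
      fun v hv X e => (a4 v hv).2.2.2.2 X ((L.ker_eq hY (a3 hv) X).2 e), fun v hv => leg v (a3 hv)⟩
  have le1 : ∀ v ∈ U, finrank ℝ (LinearMap.range (D v)) ≤ 1 := by
    have hb : BddAbove ((fun v => finrank ℝ (LinearMap.range (D v))) '' U) :=
      ⟨finrank ℝ P, by rintro _ ⟨v, -, rfl⟩; exact Submodule.finrank_le _⟩
    obtain ⟨u, hu, e⟩ := Nat.sSup_mem ⟨_, Set.mem_image_of_mem _ h₀⟩ hb
    have hm : ∀ v ∈ U, finrank ℝ (LinearMap.range (D v)) ≤ finrank ℝ (LinearMap.range (D u)) :=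
      fun v hv => (le_csSup hb (Set.mem_image_of_mem _ hv)).trans_eq e.symm
    obtain ⟨V, t, y, a1, a2, a3, a4⟩ := chart (LinearMap.range (D u)) u hu rfl hm
    exact fun v hv => (hm v hv).trans ((L.mono a1 a3).core a4 (fun v hv => (cub v (a3 hv)).2) a2)
  have e1 : finrank ℝ (LinearMap.range (D u₀)) = 1 := le_antisymm (le1 _ h₀)
    (Nat.pos_of_ne_zero fun e => (cub _ h₀).1
      (LinearMap.range_eq_bot.1 (Submodule.finrank_eq_zero.1 e)))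
  obtain ⟨V, t, y, a1, a2, a3, a4⟩ := chart ℝ u₀ h₀ (by rw [e1, finrank_self])
    fun v hv => by rw [finrank_self]; exact le1 v hv
  refine ⟨?_, V, a1, a2, a3, (L.mono a1 a3).env a4 fun u hu => (hc u (a3 hu)).2⟩
  rw [← eig_smul _ hr, mul_inv_cancel₀ hr]
  exact spec_mult (gm_symm _ u₀) (gw _ h₀) (Dv_apply r _ A W u₀) (L.sym h₀) (b2 _ h₀) e1

omit [FiniteDimensional ℂ E] [FiniteDimensional ℝ P] in
theorem IsPiece.W_ne (h : IsPiece r U Φ ξ A W) {u : P} (hu : u ∈ U) : W u ≠ 0 := fun e => by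
  obtain ⟨-, -, h1, -, -, h2⟩ := h.2.2.2 u hu
  rw [e, map_zero, eq_comm, neg_eq_zero, smul_eq_zero, or_iff_right Complex.I_ne_zero] at h2
  simp [h2, met] at h1

theorem IsPiece.sign (h : IsPiece r U Φ ξ A W) (hr : r ≠ 0)
    (hd : finrank ℝ P + 1 = 2 * finrank ℂ E) {u₀ : P} (h₀ : u₀ ∈ U)
    (h2 : A u₀ (W u₀) = (2 / -r) • W u₀) : ∀ᶠ u in 𝓝 u₀, A u (W u) ≠ (2 / r) • W u := by
  obtain ⟨c, hc, -⟩ := h.gauge
  obtain ⟨L, hw⟩ := h.lift hr hd hc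
  have key := fun u hu => (L.leg_iff hu (hw u hu)).trans (Dv_w hr (L.gw hu (hw u hu)))
  obtain ⟨X, hX⟩ := not_forall.1 (mt (key u₀ h₀).1 fun e => by
    have := smul_left_injective ℝ (h.W_ne h₀) (h2.symm.trans e)
    rw [div_neg, neg_eq_self] at this
    exact div_ne_zero two_ne_zero hr this)
  obtain ⟨_, a1, -⟩ := herm_der (L.dY' h₀) (snd_der (L.cY u₀ h₀) X).1
  filter_upwards [a1.continuousAt.eventually_ne hX, h.1.mem_nhds h₀] with u e hu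
  exact fun e' => e ((key u hu).2 e' X)

theorem IsPiece.fwd' (h : IsPiece r U Φ ξ A W) (hr : r ≠ 0)
    (hd : finrank ℝ P + 1 = 2 * finrank ℂ E)
    (h2 : ∀ u ∈ U, A u (W u) = (2 / r) • W u ∨ A u (W u) = (2 / -r) • W u)
    (h3 : ∀ u ∈ U, {l : ℝ | End.HasEigenvalue (A u) l}.ncard = 3) {u₀ : P} (h₀ : u₀ ∈ U)
    (h4 : A u₀ (W u₀) = (2 / r) • W u₀) :
    finrank ℝ (End.eigenspace (A u₀) r⁻¹) + 2 = finrank ℝ P ∧
      ∃ V, IsOpen V ∧ u₀ ∈ V ∧ V ⊆ U ∧ IsEnvelope V Φ := by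
  obtain ⟨V, a1, a2, a3⟩ := mem_nhds_iff.1 ((h.neg.sign (neg_ne_zero.2 hr) hd h₀
    (by rwa [neg_neg])).and (h.1.mem_nhds h₀))
  obtain ⟨b1, V', b2, b3, b4, b5⟩ := (h.mono a2 fun u hu => (a1 hu).2).fwd hr hd
    (fun u hu => (h2 u (a1 hu).2).resolve_right (a1 hu).1) (fun u hu => h3 u (a1 hu).2) a3
  exact ⟨b1, V', b2, b3, fun u hu => (a1 (b4 hu)).2, b5⟩

theorem IsPiece.classify (h : IsPiece r U Φ ξ A W) (hr : r ≠ 0)
    (hd : finrank ℝ P + 1 = 2 * finrank ℂ E)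
    (h2 : ∀ u ∈ U, ∃ a : ℝ, A u (W u) = a • W u ∧ a ^ 2 + 4 * (-1 / r ^ 2) = 0)
    (h3 : ∀ u ∈ U, {l : ℝ | End.HasEigenvalue (A u) l}.ncard = 3) {u₀ : P} (h₀ : u₀ ∈ U) :
    (∀ a : ℝ, A u₀ (W u₀) = a • W u₀ →
      finrank ℝ (End.eigenspace (A u₀) (a / 2)) + 2 = finrank ℝ P) ∧
      ∃ V, IsOpen V ∧ u₀ ∈ V ∧ V ⊆ U ∧ IsEnvelope V Φ := by
  have h4 : ∀ u ∈ U, A u (W u) = (2 / r) • W u ∨ A u (W u) = (2 / -r) • W u := fun u hu => by
    obtain ⟨a, e1, e2⟩ := h2 u hu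
    have : (a - 2 / r) * (a - 2 / -r) = 0 := by
      rw [← e2]
      field_simp
      ring
    exact (mul_eq_zero.1 this).imp (fun e => by rwa [sub_eq_zero.1 e] at e1)
      fun e => by rwa [sub_eq_zero.1 e] at e1
  rcases h4 u₀ h₀ with e | e
  · refine (h.fwd' hr hd h4 h3 h₀ e).imp_left fun b a ha => ?_
    rwa [smul_left_injective ℝ (h.W_ne h₀) (ha.symm.trans e), show 2 / r / 2 = r⁻¹ by ring]
  · refine (h.neg.fwd' (neg_ne_zero.2 hr) hd (fun u hu => by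
      rw [neg_neg]; exact (h4 u hu).symm) h3 h₀ e).imp_left fun b a ha => ?_
    rwa [smul_left_injective ℝ (h.W_ne h₀) (ha.symm.trans e), show 2 / -r / 2 = (-r)⁻¹ by ring]

end Pool.Agent.Lib.MP_bb4e29_gt
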